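import Pool.Agent.W312.T3.AlgDefs

/-!
# Tree 3-spanners of chordal graphs: the algorithm computes the facts
-/

set_option autoImplicit false

namespace Pool.Agent.W312.T3

open Pool.Agent.H673R2.Ts Pool.Agent.NPC

theorem mem_vsOf {I : Inst} (hle : I.1 ≤ I.2.length + 1) (x : ℕ) : x ∈ vsOf I ↔ x < I.1 := by
  unfold vsOf
  rw [List.mem_filter, List.mem_range, decide_eq_true_iff, List.length_cons]
  constructor
  · exact fun h => h.2
  · exact fun h => ⟨by omega, h⟩

section
variable {I : Inst} (hle : I.1 ≤ I.2.length + 1)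
include hle

theorem all_iff (f : ℕ → Bool) : (vsOf I).all f = true ↔ ∀ x : Fin I.1, f x = true := by
  rw [List.all_eq_true]
  exact ⟨fun h x => h x ((mem_vsOf hle _).2 x.2), fun h x hx => h ⟨x, (mem_vsOf hle x).1 hx⟩⟩

theorem any_iff (f : ℕ → Bool) : (vsOf I).any f = true ↔ ∃ x : Fin I.1, f x = true := by
  rw [List.any_eq_true]
  exact ⟨fun ⟨x, hx, h⟩ => ⟨⟨x, (mem_vsOf hle x).1 hx⟩, h⟩,
    fun ⟨x, h⟩ => ⟨x, (mem_vsOf hle _).2 x.2, h⟩⟩

omit hle in
theorem adjB_iff (x y : Fin I.1) : adjB I.2 x y = true ↔ (graphOf I).Adj x y := by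
  unfold adjB graphOf
  rw [SimpleGraph.fromRel_adj]
  simp only [Bool.and_eq_true, Bool.not_eq_true', decide_eq_false_iff_not, Bool.or_eq_true,
    decide_eq_true_eq, ne_eq, Fin.ext_iff]

omit hle in
theorem eqB_iff (x y : Fin I.1) : decide ((x : ℕ) = y) = true ↔ x = y := by
  rw [decide_eq_true_iff, Fin.ext_iff]

omit hle in
theorem qB_iff (j x : Fin I.1) : qB I.2 j x = true ↔ x ∈ Q (graphOf I) j := by
  unfold qB Q
  rw [Bool.and_eq_true, adjB_iff, decide_eq_true_iff]
  rfl

omit hle in
theorem kB_iff (j x : Fin I.1) : kB I.2 j x = true ↔ x ∈ K (graphOf I) j := by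
  unfold kB K
  rw [Bool.or_eq_true, qB_iff, eqB_iff]
  rfl

theorem parB_iff (k j : Fin I.1) : parB (vsOf I) I.2 k j = true ↔ Par (graphOf I) k j := by
  unfold parB Par
  rw [Bool.and_eq_true, qB_iff, all_iff hle]
  refine and_congr_right fun _ => forall_congr' fun x => ?_
  rw [Bool.or_eq_true, Bool.not_eq_true', ← Bool.not_eq_true, qB_iff, decide_eq_true_iff]
  exact ⟨fun h hx => h.resolve_left (fun h' => h' hx), fun h => by
    by_cases hx : x ∈ Q (graphOf I) k
    · exact Or.inr (h hx)
    · exact Or.inl hx⟩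

theorem subB_iff (k : Fin I.1) : subB (vsOf I) I.2 k = true ↔
    ∀ x ∈ Q (graphOf I) k, ∀ y ∈ Q (graphOf I) k, x = y := by
  unfold subB
  rw [all_iff hle]
  simp only [all_iff hle, Bool.or_eq_true, Bool.not_eq_true', Bool.and_eq_false_iff,
    decide_eq_true_eq]
  constructor
  · intro h x hx y hy
    rcases h x y with (h | h) | h
    · rw [← Bool.not_eq_true, qB_iff] at h
      exact absurd hx h
    · rw [← Bool.not_eq_true, qB_iff] at h
      exact absurd hy h
    · exact Fin.ext h
  · intro h x y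
    by_cases hx : x ∈ Q (graphOf I) k
    · by_cases hy : y ∈ Q (graphOf I) k
      · right
        rw [h x hx y hy]
      · left; right
        rw [← Bool.not_eq_true, qB_iff]
        exact hy
    · left; left
      rw [← Bool.not_eq_true, qB_iff]
      exact hx

theorem twoB_iff (k a c : Fin I.1) : twoB (vsOf I) I.2 k a c = true ↔
    (a ∈ Q (graphOf I) k ∧ c ∈ Q (graphOf I) k ∧
      ∀ x ∈ Q (graphOf I) k, x = a ∨ x = c) := by
  unfold twoB
  rw [Bool.and_eq_true, Bool.and_eq_true, qB_iff, qB_iff, all_iff hle]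
  refine and_congr_right fun _ => and_congr_right fun _ => forall_congr' fun x => ?_
  rw [Bool.or_eq_true, Bool.or_eq_true, Bool.not_eq_true', ← Bool.not_eq_true, qB_iff, eqB_iff,
    eqB_iff]
  exact ⟨fun h hx => h.resolve_left (fun h' => h' hx), fun h => by
    by_cases hx : x ∈ Q (graphOf I) k
    · exact Or.inr (h hx)
    · exact Or.inl hx⟩

theorem starB_iff (k a c : Fin I.1) : starB (vsOf I) I.2 k a c = true ↔
    StarEq (graphOf I) k a c := by
  unfold starB StarEq
  rw [Bool.or_eq_true, Bool.or_eq_true, eqB_iff, subB_iff hle, twoB_iff hle]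

/-- The facts in the list are the facts `F`. -/
def Rep (I : Inst) (fs : List Tup) (F : Fin I.1 → Fin I.1 → Fin I.1 → Fin I.1 → Fin I.1 → Prop) :
    Prop :=
  ∀ j p q a b : Fin I.1, ((j : ℕ), (p : ℕ), (q : ℕ), (a : ℕ), (b : ℕ)) ∈ fs ↔ F j p q a b

omit hle in
theorem memF_iff {fs : List Tup}
    {F : Fin I.1 → Fin I.1 → Fin I.1 → Fin I.1 → Fin I.1 → Prop} (hF : Rep I fs F)
    (j p q a b : Fin I.1) : memF fs j p q a b = true ↔ F j p q a b := by
  unfold memF
  rw [decide_eq_true_iff]
  exact hF j p q a b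

section
variable {fs : List Tup} {F : Fin I.1 → Fin I.1 → Fin I.1 → Fin I.1 → Fin I.1 → Prop}
  (hF : Rep I fs F)
include hF

theorem anyB_iff (k p q : Fin I.1) : anyB (vsOf I) I.2 fs k p q = true ↔
    ∃ u, ((u ∈ Q (graphOf I) k ∧ u ≠ q) ∨ u = p) ∧ F k p q q u := by
  unfold anyB
  rw [any_iff hle]
  refine exists_congr fun u => ?_
  rw [Bool.and_eq_true, Bool.or_eq_true, Bool.and_eq_true, qB_iff, Bool.not_eq_true',
    ← Bool.not_eq_true, eqB_iff, eqB_iff, memF_iff hF]

theorem nfB_iff (k c : Fin I.1) : nfB (vsOf I) I.2 fs k c = true ↔ NF (graphOf I) F k c := by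
  unfold nfB NF
  rw [all_iff hle]
  refine forall_congr' fun p => ?_
  rw [all_iff hle]
  refine forall_congr' fun q => ?_
  rw [Bool.or_eq_true, Bool.not_eq_true', ← Bool.not_eq_true, Bool.and_eq_true, adjB_iff,
    starB_iff hle, anyB_iff hle hF]
  constructor
  · intro h h1 h2
    exact h.resolve_left (fun h' => h' ⟨h1, h2⟩)
  · intro h
    by_cases h1 : (graphOf I).Adj p q ∧ StarEq (graphOf I) k p c
    · exact Or.inr (h h1.1 h1.2)
    · exact Or.inl h1

theorem arcB_iff (j p q c b : Fin I.1) : arcB (vsOf I) I.2 fs j p q c b = true ↔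
    Arc (graphOf I) F j p q c b := by
  unfold arcB Arc
  rw [Bool.or_eq_true, Bool.or_eq_true]
  refine or_congr ?_ (or_congr ?_ ?_)
  · unfold arc1
    rw [Bool.and_eq_true, Bool.and_eq_true, Bool.and_eq_true, Bool.and_eq_true, eqB_iff, kB_iff,
      Bool.not_eq_true', ← Bool.not_eq_true, eqB_iff, Bool.not_eq_true', ← Bool.not_eq_true,
      eqB_iff, Bool.not_eq_true', ← Bool.not_eq_true, adjB_iff]
  · unfold arc2
    rw [Bool.and_eq_true, Bool.and_eq_true, Bool.and_eq_true, Bool.and_eq_true, eqB_iff, kB_iff,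
      Bool.not_eq_true', ← Bool.not_eq_true, eqB_iff, Bool.not_eq_true', ← Bool.not_eq_true,
      eqB_iff, Bool.not_eq_true', ← Bool.not_eq_true, adjB_iff]
  · unfold arc3
    rw [any_iff hle]
    refine exists_congr fun k => ?_
    rw [Bool.and_eq_true, parB_iff hle]
    refine and_congr_right fun _ => ?_
    rw [Bool.and_eq_true, Bool.or_eq_true, qB_iff, eqB_iff]
    refine and_congr_right fun _ => ?_
    rw [Bool.and_eq_true, Bool.not_eq_true', ← Bool.not_eq_true, eqB_iff]
    refine and_congr_right fun _ => ?_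
    rw [Bool.and_eq_true, Bool.or_eq_true, qB_iff, eqB_iff]
    refine and_congr_right fun _ => ?_
    rw [Bool.and_eq_true, Bool.not_eq_true', ← Bool.not_eq_true, eqB_iff]
    refine and_congr_right fun _ => ?_
    rw [Bool.and_eq_true, memF_iff hF]
    refine and_congr_right fun _ => ?_
    rw [Bool.and_eq_true, Bool.or_eq_true, Bool.or_eq_true, Bool.not_eq_true',
      ← Bool.not_eq_true, eqB_iff, nfB_iff hle hF, Bool.not_eq_true', ← Bool.not_eq_true, eqB_iff,
      nfB_iff hle hF]
    exact and_congr imp_iff_not_or.symm imp_iff_not_or.symm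

theorem stepB_iff (j p q a b : Fin I.1) :
    stepB (vsOf I) I.2 fs ((j : ℕ), (p : ℕ), (q : ℕ), (a : ℕ), (b : ℕ)) = true ↔
      Step (graphOf I) F j p q a b := by
  unfold stepB Step
  dsimp only
  rw [Bool.or_eq_true, Bool.or_eq_true, Bool.or_eq_true, Bool.or_eq_true, eqB_iff, eqB_iff,
    memF_iff hF, memF_iff hF, any_iff hle]
  refine or_congr_right (or_congr_right (or_congr_right (or_congr_right
    (exists_congr fun c => ?_))))
  rw [Bool.and_eq_true, memF_iff hF, arcB_iff hle hF]

theorem rep_next : Rep I (next I fs) (Step (graphOf I) F) := by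
  intro j p q a b
  unfold next univT
  rw [List.mem_filter, stepB_iff hle hF]
  simp only [SProd.sprod, List.product, List.mem_flatMap, List.mem_map, Prod.mk.injEq]
  constructor
  · exact fun h => h.2
  · intro h
    refine ⟨⟨j, (mem_vsOf hle _).2 j.2, _, ⟨p, (mem_vsOf hle _).2 p.2, _, ⟨q,
      (mem_vsOf hle _).2 q.2, _, ⟨a, (mem_vsOf hle _).2 a.2, _, (mem_vsOf hle _).2 b.2, rfl⟩,
      rfl⟩, rfl⟩, rfl, rfl⟩, h⟩

end

/-- The iterates. -/
def Fk (I : Inst) (k : ℕ) : Fin I.1 → Fin I.1 → Fin I.1 → Fin I.1 → Fin I.1 → Prop :=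
  (Step (graphOf I))^[k] (fun _ _ _ _ _ => False)

theorem rep_iter (k : ℕ) : Rep I ((next I)^[k] []) (Fk I k) := by
  induction k with
  | zero =>
    intro j p q a b
    simp [Fk]
  | succ k ih =>
    unfold Fk
    rw [Function.iterate_succ_apply', Function.iterate_succ_apply']
    exact rep_next hle ih

end

/-- `Step` is monotone. -/
theorem step_mono {V : Type} [LinearOrder V] (G : SimpleGraph V)
    {F F' : V → V → V → V → V → Prop} (h : ∀ j p q a b, F j p q a b → F' j p q a b)
    (j p q a b : V) (hs : Step G F j p q a b) : Step G F' j p q a b := by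
  have hnf : ∀ k c, NF G F k c → NF G F' k c := by
    intro k c hk p q hpq hst
    obtain ⟨u, hu, hF⟩ := hk p q hpq hst
    exact ⟨u, hu, h _ _ _ _ _ hF⟩
  rcases hs with h1 | h1 | h1 | h1 | ⟨c, h1, h2⟩
  · exact Or.inl h1
  · exact Or.inr (Or.inl h1)
  · exact Or.inr (Or.inr (Or.inl (h _ _ _ _ _ h1)))
  · exact Or.inr (Or.inr (Or.inr (Or.inl (h _ _ _ _ _ h1))))
  · refine Or.inr (Or.inr (Or.inr (Or.inr ⟨c, h _ _ _ _ _ h1, ?_⟩)))
    rcases h2 with h2 | h2 | ⟨k, a1, a2, a3, a4, a5, a6, a7, a8⟩
    · exact Or.inl h2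
    · exact Or.inr (Or.inl h2)
    · exact Or.inr (Or.inr ⟨k, a1, a2, a3, a4, a5, h _ _ _ _ _ a6, fun e => hnf _ _ (a7 e),
        fun e => hnf _ _ (a8 e)⟩)

theorem stab {α : Type} [Fintype α] [DecidableEq α] (s : ℕ → Finset α)
    (h1 : ∀ k, s k ⊆ s (k + 1)) (h2 : ∀ k, s k = s (k + 1) → s (k + 1) = s (k + 2)) (N : ℕ)
    (hN : Fintype.card α ≤ N) : s N = s (N + 1) := by
  by_contra hne
  have h3 : ∀ d, ∀ k, k + d = N → s k ≠ s (k + 1) := by
    intro d
    induction d with
    | zero =>
      intro k hk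
      rw [Nat.add_zero] at hk
      subst hk
      exact hne
    | succ d ih =>
      intro k hk heq
      exact ih (k + 1) (by omega) (h2 k heq)
  have h4 : ∀ k, k ≤ N + 1 → k ≤ (s k).card := by
    intro k
    induction k with
    | zero => intro _; exact Nat.zero_le _
    | succ k ih =>
      intro hk
      have h5 := ih (by omega)
      have h6 : s k ⊂ s (k + 1) :=
        Finset.ssubset_iff_subset_ne.2 ⟨h1 k, h3 (N - k) k (by omega)⟩
      have h7 := Finset.card_lt_card h6
      omega
  have h8 := h4 (N + 1) le_rfl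
  have h9 := Finset.card_le_univ (s (N + 1))
  omega

open Classical in
theorem alg : S_ALG := by
  refine ⟨algB, poly_algB, fun I h2 hle => ?_⟩
  have hmono : ∀ k, ∀ j p q a b, Fk I k j p q a b → Fk I (k + 1) j p q a b := by
    intro k
    induction k with
    | zero =>
      intro j p q a b h
      exact h.elim
    | succ k ih =>
      intro j p q a b h
      unfold Fk at ih h ⊢
      rw [Function.iterate_succ_apply'] at h ⊢
      exact step_mono _ ih j p q a b h
  let T := Fin I.1 × Fin I.1 × Fin I.1 × Fin I.1 × Fin I.1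
  let s : ℕ → Finset T := fun k =>
    Finset.univ.filter (fun t => Fk I k t.1 t.2.1 t.2.2.1 t.2.2.2.1 t.2.2.2.2)
  have hs : ∀ k, s k = s (k + 1) → Fk I k = Fk I (k + 1) := by
    intro k h
    funext j p q a b
    apply propext
    have h3 : ((j, p, q, a, b) : T) ∈ s k ↔ ((j, p, q, a, b) : T) ∈ s (k + 1) := by rw [h]
    simpa [s] using h3
  have hlen : (univT (vsOf I)).length = Fintype.card T := by
    have h3 : (vsOf I).length = I.1 := by
      have h4 : vsOf I = List.range I.1 := by
        unfold vsOf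
        rw [List.length_cons]
        have h5 : ∀ m, I.1 ≤ m → (List.range m).filter (fun x => decide (x < I.1)) =
            List.range I.1 := by
          intro m hm
          induction m, hm using Nat.le_induction with
          | base =>
            rw [List.filter_eq_self]
            intro a ha
            rw [decide_eq_true_iff]
            exact List.mem_range.1 ha
          | succ m hm ih =>
            rw [List.range_succ, List.filter_append, ih]
            simp [Nat.not_lt.2 hm]
        exact h5 _ hle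
      rw [h4, List.length_range]
    unfold univT
    simp only [List.length_product, h3]
    simp only [T, Fintype.card_prod, Fintype.card_fin]
  have hst := stab s (fun k t ht => by
      simp only [s, Finset.mem_filter, Finset.mem_univ, true_and] at ht ⊢
      exact hmono k _ _ _ _ _ ht)
    (fun k hk => by
      have h3 := hs k hk
      have h4 : Fk I (k + 1) = Fk I (k + 2) := by
        unfold Fk at h3 ⊢
        rw [Function.iterate_succ_apply', Function.iterate_succ_apply', ← h3]
      simp only [s, h4]) (univT (vsOf I)).length hlen.ge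
  have hfix := hs _ hst
  refine ⟨Fk I (univT (vsOf I)).length, ⟨_, rfl⟩, ?_, ?_⟩
  · intro j p q a b _ h
    rw [hfix]
    unfold Fk at h ⊢
    rw [Function.iterate_succ_apply']
    exact h
  · intro r hr
    have hr' : (r : ℕ) = I.1 - 1 := by
      have h3 := hr ⟨I.1 - 1, by omega⟩
      have h4 := r.2
      have h5 : I.1 - 1 ≤ (r : ℕ) := h3
      omega
    unfold algB
    rw [any_iff hle]
    refine exists_congr fun p => ?_
    rw [any_iff hle]
    refine exists_congr fun q => ?_
    unfold factsOf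
    rw [Bool.and_eq_true, adjB_iff, Bool.not_eq_true', ← Bool.not_eq_true, ← hr',
      memF_iff (rep_iter hle _)]

end Pool.Agent.W312.T3
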