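import Pool.Agent.W312.T3.Stm2

/-!
# Tree 3-spanners of chordal graphs: the algorithm
-/

set_option autoImplicit false

namespace Pool.Agent.W312.T3

open Pool.Agent.H673R2.Ts Pool.Agent.NPC

/-- Facts. -/
abbrev Tup : Type := ℕ × ℕ × ℕ × ℕ × ℕ

/-- Adjacency. -/
def adjB (es : List (ℕ × ℕ)) (x y : ℕ) : Bool :=
  !decide (x = y) && (decide ((x, y) ∈ es) || decide ((y, x) ∈ es))

def qB (es : List (ℕ × ℕ)) (j x : ℕ) : Bool := decide (j < x) && adjB es j x

def kB (es : List (ℕ × ℕ)) (j x : ℕ) : Bool := decide (x = j) || qB es j x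

def parB (vs : List ℕ) (es : List (ℕ × ℕ)) (k j : ℕ) : Bool :=
  qB es k j && vs.all (fun x => !qB es k x || decide (j ≤ x))

def memF (fs : List Tup) (j p q a b : ℕ) : Bool := decide ((j, p, q, a, b) ∈ fs)

def subB (vs : List ℕ) (es : List (ℕ × ℕ)) (k : ℕ) : Bool :=
  vs.all fun x => vs.all fun y => !(qB es k x && qB es k y) || decide (x = y)

def twoB (vs : List ℕ) (es : List (ℕ × ℕ)) (k a c : ℕ) : Bool :=
  qB es k a && (qB es k c && vs.all fun x => !qB es k x || (decide (x = a) || decide (x = c)))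

def starB (vs : List ℕ) (es : List (ℕ × ℕ)) (k a c : ℕ) : Bool :=
  decide (a = c) || (subB vs es k || twoB vs es k a c)

def anyB (vs : List ℕ) (es : List (ℕ × ℕ)) (fs : List Tup) (k p q : ℕ) : Bool :=
  vs.any fun u => ((qB es k u && !decide (u = q)) || decide (u = p)) && memF fs k p q q u

def nfB (vs : List ℕ) (es : List (ℕ × ℕ)) (fs : List Tup) (k c : ℕ) : Bool :=
  vs.all fun p => vs.all fun q => !(adjB es p q && starB vs es k p c) || anyB vs es fs k p q

def arc1 (es : List (ℕ × ℕ)) (j p q c b : ℕ) : Bool :=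
  decide (c = q) && (kB es j b && (!decide (b = p) && (!decide (b = q) && !adjB es b p)))

def arc2 (es : List (ℕ × ℕ)) (j p q c b : ℕ) : Bool :=
  decide (b = p) && (kB es j c && (!decide (c = p) && (!decide (c = q) && !adjB es c q)))

def arc3 (vs : List ℕ) (es : List (ℕ × ℕ)) (fs : List Tup) (j p q c b : ℕ) : Bool :=
  vs.any fun k => parB vs es k j && ((qB es k c || decide (c = q)) && (!decide (c = p) &&
    ((qB es k b || decide (b = p)) && (!decide (b = q) && (memF fs k p q c b &&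
      ((!decide (b = p) || nfB vs es fs k q) && (!decide (c = q) || nfB vs es fs k p)))))))

def arcB (vs : List ℕ) (es : List (ℕ × ℕ)) (fs : List Tup) (j p q c b : ℕ) : Bool :=
  arc1 es j p q c b || (arc2 es j p q c b || arc3 vs es fs j p q c b)

def stepB (vs : List ℕ) (es : List (ℕ × ℕ)) (fs : List Tup) (t : Tup) : Bool :=
  decide (t.2.2.2.1 = t.2.2.2.2) || (decide (t.2.2.2.2 = t.2.2.1) ||
    (memF fs t.1 t.2.1 t.2.2.1 t.2.2.1 t.2.2.2.2 || (memF fs t.1 t.2.1 t.2.2.1 t.2.2.2.1 t.2.1 ||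
      vs.any fun c => memF fs t.1 t.2.1 t.2.2.1 t.2.2.2.1 c &&
        arcB vs es fs t.1 t.2.1 t.2.2.1 c t.2.2.2.2)))

/-- All tuples. -/
def univT (vs : List ℕ) : List Tup := vs ×ˢ (vs ×ˢ (vs ×ˢ (vs ×ˢ vs)))

def vsOf (I : Inst) : List ℕ := (List.range ((0, 0) :: I.2).length).filter (fun x => decide (x < I.1))

def next (I : Inst) (fs : List Tup) : List Tup :=
  (univT (vsOf I)).filter (fun t => stepB (vsOf I) I.2 fs t)

def factsOf (I : Inst) : List Tup := (next I)^[(univT (vsOf I)).length] []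

def algB (I : Inst) : Bool :=
  (vsOf I).any fun p => (vsOf I).any fun q =>
    adjB I.2 p q && !memF (factsOf I) (I.1 - 1) p q q p

section
variable {α : Type} [TEnc α]

theorem poly_adjB {es : α → List (ℕ × ℕ)} {x y : α → ℕ} (he : Poly es) (hx : Poly x)
    (hy : Poly y) : Poly (fun a => adjB (es a) (x a) (y a)) := by
  unfold adjB
  refine Poly.and (Poly.not (Poly.decide_eq hx hy)) (Poly.or
    ((Poly.decide_mem (Poly.pair hx hy) he).congr fun a => ?_)
    ((Poly.decide_mem (Poly.pair hy hx) he).congr fun a => ?_)) <;> congr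

theorem poly_qB {es : α → List (ℕ × ℕ)} {x y : α → ℕ} (he : Poly es) (hx : Poly x)
    (hy : Poly y) : Poly (fun a => qB (es a) (x a) (y a)) := by
  unfold qB
  exact Poly.and (Poly.decide_lt hx hy) (poly_adjB he hx hy)

theorem poly_kB {es : α → List (ℕ × ℕ)} {x y : α → ℕ} (he : Poly es) (hx : Poly x)
    (hy : Poly y) : Poly (fun a => kB (es a) (x a) (y a)) := by
  unfold kB
  exact Poly.or (Poly.decide_eq hy hx) (poly_qB he hx hy)

theorem p1 {β γ : Type} [TEnc β] [TEnc γ] {f : α → β} (hf : Poly f) :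
    Poly (fun x : α × γ => f x.1) := hf.comp (Poly.fst Poly.id)

theorem p2 {β : Type} [TEnc β] : Poly (fun x : α × β => x.2) := Poly.snd Poly.id

theorem poly_parB {vs : α → List ℕ} {es : α → List (ℕ × ℕ)} {k j : α → ℕ} (hv : Poly vs)
    (he : Poly es) (hk : Poly k) (hj : Poly j) :
    Poly (fun a => parB (vs a) (es a) (k a) (j a)) := by
  unfold parB
  exact Poly.and (poly_qB he hk hj) (Poly.all
    (p := fun a x => !qB (es a) (k a) x || decide (j a ≤ x)) hv
    (Poly.or (Poly.not (poly_qB (p1 he) (p1 hk) p2)) (Poly.decide_le (p1 hj) p2)))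

theorem poly_memF {fs : α → List Tup} {j p q a b : α → ℕ} (hf : Poly fs) (hj : Poly j)
    (hp : Poly p) (hq : Poly q) (ha : Poly a) (hb : Poly b) :
    Poly (fun x => memF (fs x) (j x) (p x) (q x) (a x) (b x)) := by
  unfold memF
  exact (Poly.decide_mem (Poly.pair hj (Poly.pair hp (Poly.pair hq (Poly.pair ha hb)))) hf).congr
    fun a => by congr

theorem poly_subB {vs : α → List ℕ} {es : α → List (ℕ × ℕ)} {k : α → ℕ} (hv : Poly vs)
    (he : Poly es) (hk : Poly k) : Poly (fun a => subB (vs a) (es a) (k a)) := by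
  unfold subB
  exact Poly.all (p := fun a x => (vs a).all fun y => !(qB (es a) (k a) x && qB (es a) (k a) y) ||
    decide (x = y)) hv
    (Poly.all (p := fun (t : α × ℕ) y => !(qB (es t.1) (k t.1) t.2 && qB (es t.1) (k t.1) y) ||
      decide (t.2 = y)) (p1 hv)
    (Poly.or (Poly.not (Poly.and (poly_qB (p1 (p1 he)) (p1 (p1 hk)) (p1 p2))
      (poly_qB (p1 (p1 he)) (p1 (p1 hk)) p2))) (Poly.decide_eq (p1 p2) p2)))

theorem poly_twoB {vs : α → List ℕ} {es : α → List (ℕ × ℕ)} {k a c : α → ℕ} (hv : Poly vs)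
    (he : Poly es) (hk : Poly k) (ha : Poly a) (hc : Poly c) :
    Poly (fun x => twoB (vs x) (es x) (k x) (a x) (c x)) := by
  unfold twoB
  exact Poly.and (poly_qB he hk ha) (Poly.and (poly_qB he hk hc)
    (Poly.all (p := fun t x => !qB (es t) (k t) x || (decide (x = a t) || decide (x = c t))) hv
      (Poly.or (Poly.not (poly_qB (p1 he) (p1 hk) p2))
        (Poly.or (Poly.decide_eq p2 (p1 ha)) (Poly.decide_eq p2 (p1 hc))))))

theorem poly_starB {vs : α → List ℕ} {es : α → List (ℕ × ℕ)} {k a c : α → ℕ} (hv : Poly vs)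
    (he : Poly es) (hk : Poly k) (ha : Poly a) (hc : Poly c) :
    Poly (fun x => starB (vs x) (es x) (k x) (a x) (c x)) := by
  unfold starB
  exact Poly.or (Poly.decide_eq ha hc) (Poly.or (poly_subB hv he hk) (poly_twoB hv he hk ha hc))

theorem poly_anyB {vs : α → List ℕ} {es : α → List (ℕ × ℕ)} {fs : α → List Tup}
    {k p q : α → ℕ} (hv : Poly vs) (he : Poly es) (hf : Poly fs) (hk : Poly k) (hp : Poly p)
    (hq : Poly q) : Poly (fun x => anyB (vs x) (es x) (fs x) (k x) (p x) (q x)) := by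
  unfold anyB
  exact Poly.any (p := fun t u => ((qB (es t) (k t) u && !decide (u = q t)) || decide (u = p t)) &&
    memF (fs t) (k t) (p t) (q t) (q t) u) hv
    (Poly.and (Poly.or (Poly.and (poly_qB (p1 he) (p1 hk) p2)
      (Poly.not (Poly.decide_eq p2 (p1 hq)))) (Poly.decide_eq p2 (p1 hp)))
      (poly_memF (p1 hf) (p1 hk) (p1 hp) (p1 hq) (p1 hq) p2))

theorem poly_nfB {vs : α → List ℕ} {es : α → List (ℕ × ℕ)} {fs : α → List Tup}
    {k c : α → ℕ} (hv : Poly vs) (he : Poly es) (hf : Poly fs) (hk : Poly k) (hc : Poly c) :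
    Poly (fun x => nfB (vs x) (es x) (fs x) (k x) (c x)) := by
  unfold nfB
  exact Poly.all (p := fun t p => (vs t).all fun q => !(adjB (es t) p q &&
      starB (vs t) (es t) (k t) p (c t)) || anyB (vs t) (es t) (fs t) (k t) p q) hv
    (Poly.all (p := fun (t : α × ℕ) q => !(adjB (es t.1) t.2 q &&
      starB (vs t.1) (es t.1) (k t.1) t.2 (c t.1)) ||
        anyB (vs t.1) (es t.1) (fs t.1) (k t.1) t.2 q) (p1 hv)
      (Poly.or (Poly.not (Poly.and (poly_adjB (p1 (p1 he)) (p1 p2) p2)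
        (poly_starB (p1 (p1 hv)) (p1 (p1 he)) (p1 (p1 hk)) (p1 p2) (p1 (p1 hc)))))
        (poly_anyB (p1 (p1 hv)) (p1 (p1 he)) (p1 (p1 hf)) (p1 (p1 hk)) (p1 p2) p2)))

theorem poly_arc1 {es : α → List (ℕ × ℕ)} {j p q c b : α → ℕ} (he : Poly es) (hj : Poly j)
    (hp : Poly p) (hq : Poly q) (hc : Poly c) (hb : Poly b) :
    Poly (fun x => arc1 (es x) (j x) (p x) (q x) (c x) (b x)) := by
  unfold arc1
  exact Poly.and (Poly.decide_eq hc hq) (Poly.and (poly_kB he hj hb) (Poly.and
    (Poly.not (Poly.decide_eq hb hp)) (Poly.and (Poly.not (Poly.decide_eq hb hq))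
      (Poly.not (poly_adjB he hb hp)))))

theorem poly_arc2 {es : α → List (ℕ × ℕ)} {j p q c b : α → ℕ} (he : Poly es) (hj : Poly j)
    (hp : Poly p) (hq : Poly q) (hc : Poly c) (hb : Poly b) :
    Poly (fun x => arc2 (es x) (j x) (p x) (q x) (c x) (b x)) := by
  unfold arc2
  exact Poly.and (Poly.decide_eq hb hp) (Poly.and (poly_kB he hj hc) (Poly.and
    (Poly.not (Poly.decide_eq hc hp)) (Poly.and (Poly.not (Poly.decide_eq hc hq))
      (Poly.not (poly_adjB he hc hq)))))

theorem poly_arc3 {vs : α → List ℕ} {es : α → List (ℕ × ℕ)} {fs : α → List Tup}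
    {j p q c b : α → ℕ} (hv : Poly vs) (he : Poly es) (hf : Poly fs) (hj : Poly j)
    (hp : Poly p) (hq : Poly q) (hc : Poly c) (hb : Poly b) :
    Poly (fun x => arc3 (vs x) (es x) (fs x) (j x) (p x) (q x) (c x) (b x)) := by
  unfold arc3
  refine Poly.any (p := fun t k => parB (vs t) (es t) k (j t) && ((qB (es t) k (c t) ||
    decide (c t = q t)) && (!decide (c t = p t) &&
    ((qB (es t) k (b t) || decide (b t = p t)) && (!decide (b t = q t) &&
      (memF (fs t) k (p t) (q t) (c t) (b t) &&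
      ((!decide (b t = p t) || nfB (vs t) (es t) (fs t) k (q t)) &&
        (!decide (c t = q t) || nfB (vs t) (es t) (fs t) k (p t))))))))) hv ?_
  exact Poly.and (poly_parB (p1 hv) (p1 he) p2 (p1 hj)) (Poly.and
    (Poly.or (poly_qB (p1 he) p2 (p1 hc)) (Poly.decide_eq (p1 hc) (p1 hq))) (Poly.and
    (Poly.not (Poly.decide_eq (p1 hc) (p1 hp))) (Poly.and
    (Poly.or (poly_qB (p1 he) p2 (p1 hb)) (Poly.decide_eq (p1 hb) (p1 hp))) (Poly.and
    (Poly.not (Poly.decide_eq (p1 hb) (p1 hq))) (Poly.and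
    (poly_memF (p1 hf) p2 (p1 hp) (p1 hq) (p1 hc) (p1 hb)) (Poly.and
    (Poly.or (Poly.not (Poly.decide_eq (p1 hb) (p1 hp)))
      (poly_nfB (p1 hv) (p1 he) (p1 hf) p2 (p1 hq)))
    (Poly.or (Poly.not (Poly.decide_eq (p1 hc) (p1 hq)))
      (poly_nfB (p1 hv) (p1 he) (p1 hf) p2 (p1 hp)))))))))

theorem poly_arcB {vs : α → List ℕ} {es : α → List (ℕ × ℕ)} {fs : α → List Tup}
    {j p q c b : α → ℕ} (hv : Poly vs) (he : Poly es) (hf : Poly fs) (hj : Poly j)
    (hp : Poly p) (hq : Poly q) (hc : Poly c) (hb : Poly b) :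
    Poly (fun x => arcB (vs x) (es x) (fs x) (j x) (p x) (q x) (c x) (b x)) := by
  unfold arcB
  exact Poly.or (poly_arc1 he hj hp hq hc hb) (Poly.or (poly_arc2 he hj hp hq hc hb)
    (poly_arc3 hv he hf hj hp hq hc hb))

theorem poly_stepB {vs : α → List ℕ} {es : α → List (ℕ × ℕ)} {fs : α → List Tup}
    {t : α → Tup} (hv : Poly vs) (he : Poly es) (hf : Poly fs) (ht : Poly t) :
    Poly (fun x => stepB (vs x) (es x) (fs x) (t x)) := by
  unfold stepB
  have hj : Poly (fun x => (t x).1) := Poly.fst ht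
  have hp : Poly (fun x => (t x).2.1) := Poly.fst (Poly.snd ht)
  have hq : Poly (fun x => (t x).2.2.1) := Poly.fst (Poly.snd (Poly.snd ht))
  have ha : Poly (fun x => (t x).2.2.2.1) := Poly.fst (Poly.snd (Poly.snd (Poly.snd ht)))
  have hb : Poly (fun x => (t x).2.2.2.2) := Poly.snd (Poly.snd (Poly.snd (Poly.snd ht)))
  exact Poly.or (Poly.decide_eq ha hb) (Poly.or (Poly.decide_eq hb hq) (Poly.or
    (poly_memF hf hj hp hq hq hb) (Poly.or (poly_memF hf hj hp hq ha hp)
    (Poly.any (p := fun x c => memF (fs x) (t x).1 (t x).2.1 (t x).2.2.1 (t x).2.2.2.1 c &&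
        arcB (vs x) (es x) (fs x) (t x).1 (t x).2.1 (t x).2.2.1 c (t x).2.2.2.2) hv
      (Poly.and (poly_memF (p1 hf) (p1 hj) (p1 hp) (p1 hq) (p1 ha) p2)
        (poly_arcB (p1 hv) (p1 he) (p1 hf) (p1 hj) (p1 hp) (p1 hq) p2 (p1 hb)))))))

theorem poly_product' {β γ : Type} [TEnc β] [TEnc γ] {l : α → List β} {l' : α → List γ}
    (hl : Poly l) (hl' : Poly l') : Poly (fun a => (l a) ×ˢ (l' a)) :=
  (Poly.flatMap (F := fun a b => (l' a).map (fun c => (b, c))) hl
    (NPC.Poly.map (l := fun p : α × β => l' p.1) (F := fun p c => (p.2, c))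
      (hl'.comp (Poly.fst Poly.id))
      (Poly.pair (Poly.snd (Poly.fst Poly.id)) (Poly.snd Poly.id)))).congr fun a => rfl

end

theorem poly_vsOf : Poly vsOf := by
  unfold vsOf
  exact Poly.filter (p := fun (I : Inst) (x : ℕ) => decide (x < I.1))
    (Poly.range_length (Poly.cons (NPC.Poly.const (0, 0)) (Poly.snd Poly.id)))
    (Poly.decide_lt p2 (p1 (Poly.fst Poly.id)))

theorem poly_univT {α : Type} [TEnc α] {vs : α → List ℕ} (hv : Poly vs) :
    Poly (fun a => univT (vs a)) := by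
  unfold univT
  exact poly_product' hv (poly_product' hv (poly_product' hv (poly_product' hv hv)))

theorem sz_filter_le {β : Type} [TEnc β] (l : List β) (f : β → Bool) :
    sz (l.filter f) ≤ sz l := by
  induction l with
  | nil => simp
  | cons a l ih =>
    rw [List.filter_cons]
    by_cases h : f a = true
    · rw [if_pos h]
      simp only [sz_list_cons]
      omega
    · rw [if_neg h]
      simp only [sz_list_cons]
      omega

theorem sz_nil_le {β : Type} [TEnc β] (l : List β) : sz ([] : List β) ≤ sz l := by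
  have := sz_pos l
  simp only [sz_list_nil]
  omega

theorem poly_next : Poly (fun t : Inst × List Tup => next t.1 t.2) := by
  unfold next
  refine Poly.filter (l := fun t : Inst × List Tup => univT (vsOf t.1))
    (p := fun (t : Inst × List Tup) (x : Tup) => stepB (vsOf t.1) t.1.2 t.2 x)
    (poly_univT (poly_vsOf.comp (Poly.fst Poly.id))) ?_
  exact poly_stepB (poly_vsOf.comp (Poly.fst (Poly.fst Poly.id)))
    (Poly.snd (Poly.fst (Poly.fst Poly.id))) (Poly.snd (Poly.fst Poly.id)) (Poly.snd Poly.id)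

theorem poly_factsOf : Poly factsOf := by
  unfold factsOf
  obtain ⟨r, hr⟩ := (poly_univT poly_vsOf).sz_le
  refine Poly.iterLen (l := fun I : Inst => univT (vsOf I)) (s := fun _ => ([] : List Tup))
    (F := fun I fs => next I fs) (poly_univT poly_vsOf) (NPC.Poly.const []) poly_next r ?_
  intro I k _
  refine le_trans ?_ (hr I)
  cases k with
  | zero => exact sz_nil_le _
  | succ k =>
    rw [Function.iterate_succ_apply']
    exact sz_filter_le _ _

theorem poly_algB : Poly algB := by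
  unfold algB
  refine Poly.any (p := fun (I : Inst) (p : ℕ) => (vsOf I).any fun q =>
    adjB I.2 p q && !memF (factsOf I) (I.1 - 1) p q q p) poly_vsOf ?_
  refine Poly.any (l := fun t : Inst × ℕ => vsOf t.1) (p := fun (t : Inst × ℕ) (q : ℕ) =>
    adjB t.1.2 t.2 q && !memF (factsOf t.1) (t.1.1 - 1) t.2 q q t.2)
    (poly_vsOf.comp (Poly.fst Poly.id)) ?_
  exact Poly.and (poly_adjB (Poly.snd (Poly.fst (Poly.fst Poly.id)))
    (Poly.snd (Poly.fst Poly.id)) (Poly.snd Poly.id))
    (Poly.not (poly_memF (poly_factsOf.comp (Poly.fst (Poly.fst Poly.id)))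
      (Poly.sub (Poly.fst (Poly.fst (Poly.fst Poly.id))) (NPC.Poly.const 1))
      (Poly.snd (Poly.fst Poly.id)) (Poly.snd Poly.id) (Poly.snd Poly.id)
      (Poly.snd (Poly.fst Poly.id))))

end Pool.Agent.W312.T3
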