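import Mathlib

/-!
# Tree 3-spanners of chordal graphs: definitions

The vertices of a chordal graph are ordered by a perfect elimination order. `Q G j` is the set of
later neighbours of `j`, `K G j` adds `j`, and the parent of `k` is the least element of `Q G k`.
`D G j` is the set of descendants of `j` (`j` included) and `H G j = D G j ∪ Q G j`.

A profile `(p, q, s)` describes the shape of a spanning tree near a clique: every vertex of the
clique is `p` or `q` or joined by an edge of the tree to its side, which is `q` for the vertices in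
`s` and `p` for the other ones. `gg p q s x y` is the neighbour of `x` on the path from `x` to `y`.
-/

set_option autoImplicit false

open Classical

namespace Pool.Agent.W312.T3

variable {V : Type} [LinearOrder V]

/-- The later neighbours of `j`. -/
def Q (G : SimpleGraph V) (j : V) : Set V := {x | j < x ∧ G.Adj j x}

/-- The bag of `j`: the vertex `j` and its later neighbours. -/
def K (G : SimpleGraph V) (j : V) : Set V := {x | x = j ∨ x ∈ Q G j}

/-- `j` is the parent of `k`: the first later neighbour. -/
def Par (G : SimpleGraph V) (k j : V) : Prop := j ∈ Q G k ∧ ∀ x ∈ Q G k, j ≤ x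

/-- The descendants of `j`. -/
def D (G : SimpleGraph V) (j : V) : Set V := {k | Relation.ReflTransGen (Par G) k j}

/-- The descendants of `j` and the later neighbours of `j`. -/
def H (G : SimpleGraph V) (j : V) : Set V := {x | x ∈ D G j ∨ x ∈ Q G j}

/-- The order of the vertices is a perfect elimination order. -/
def PEO (G : SimpleGraph V) : Prop :=
  ∀ v x y, v < x → v < y → G.Adj v x → G.Adj v y → x ≠ y → G.Adj x y

/-- The side of a vertex. -/
noncomputable def side (p q : V) (s : Set V) (x : V) : V := if x ∈ s then q else p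

/-- The next vertex on the path from `x` to `y`. -/
noncomputable def gg (p q : V) (s : Set V) (x y : V) : V :=
  if x ≠ side p q s x then side p q s x else if side p q s y = x then y else side p q s y

/-- `(p, q, s)` is the profile of `f` on the set `S`. -/
def IsProf (G : SimpleGraph V) (f : V → V → V) (S : Set V) (p q : V) (s : Set V) : Prop :=
  G.Adj p q ∧ q ∈ s ∧ p ∉ s ∧ (∀ x ∈ S, x ≠ side p q s x → G.Adj x (side p q s x)) ∧
    ∀ x ∈ S, ∀ y ∈ S, x ≠ y → f x y = gg p q s x y

/-- The edges on the paths are edges of the tree, as far as they lie in the set `S`. -/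
def EdgeOk (G : SimpleGraph V) (f : V → V → V) (S : Set V) : Prop :=
  (∀ x ∈ S, ∀ y ∈ S, G.Adj x y → f x y ∈ S → f x (f x y) = f x y ∧ f (f x y) x = x) ∧
    ∀ x ∈ S, ∀ y ∈ S, G.Adj x y → f x y ≠ y → f x y ≠ f y x → f x y ∈ S → f y x ∈ S →
      f (f x y) (f y x) = f y x

/-- `f` is a partial certificate on `H G j`. -/
def PC (G : SimpleGraph V) (j : V) (f : V → V → V) : Prop :=
  (∀ m ∈ D G j, ∃ p q s, IsProf G f (K G m) p q s) ∧ EdgeOk G f (H G j)

/-- The star with centre `a` and the star with centre `c` are the same on `Q G k`. -/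
def StarEq (G : SimpleGraph V) (k a c : V) : Prop :=
  a = c ∨ (∀ x ∈ Q G k, ∀ y ∈ Q G k, x = y) ∨
    (a ∈ Q G k ∧ c ∈ Q G k ∧ ∀ x ∈ Q G k, x = a ∨ x = c)

/-- No solution below `k` is a star with centre `c` on `Q G k`. -/
def NF (G : SimpleGraph V) (F : V → V → V → V → V → Prop) (k c : V) : Prop :=
  ∀ p q, G.Adj p q → StarEq G k p c → ∃ u, ((u ∈ Q G k ∧ u ≠ q) ∨ u = p) ∧ F k p q q u

/-- The one-step implications at `j`: if `c` is on the side of `q` then so is `b`. -/
def Arc (G : SimpleGraph V) (F : V → V → V → V → V → Prop) (j p q c b : V) : Prop :=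
  (c = q ∧ b ∈ K G j ∧ b ≠ p ∧ b ≠ q ∧ ¬ G.Adj b p) ∨
  (b = p ∧ c ∈ K G j ∧ c ≠ p ∧ c ≠ q ∧ ¬ G.Adj c q) ∨
  ∃ k, Par G k j ∧ (c ∈ Q G k ∨ c = q) ∧ c ≠ p ∧ (b ∈ Q G k ∨ b = p) ∧ b ≠ q ∧ F k p q c b ∧
    (b = p → NF G F k q) ∧ (c = q → NF G F k p)

/-- The rules for the facts `F j p q a b`: in every solution below `j` with centre `p q`, if `a` is
on the side of `q` then so is `b`. -/
def Step (G : SimpleGraph V) (F : V → V → V → V → V → Prop) (j p q a b : V) : Prop :=
  a = b ∨ b = q ∨ F j p q q b ∨ F j p q a p ∨ ∃ c, F j p q a c ∧ Arc G F j p q c b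

/-- The facts are valid. -/
def Val (G : SimpleGraph V) (F : V → V → V → V → V → Prop) : Prop :=
  ∀ j p q a b, G.Adj p q → F j p q a b → ∀ f s, PC G j f → IsProf G f (K G j) p q s →
    a ∈ s → b ∈ s

/-- The facts are closed under the rules. -/
def Closed (G : SimpleGraph V) (F : V → V → V → V → V → Prop) : Prop :=
  ∀ j p q a b, G.Adj p q → Step G F j p q a b → F j p q a b

/-- The set `s` is closed under the implications at `j`. -/
def ArcClosed (G : SimpleGraph V) (F : V → V → V → V → V → Prop) (j p q : V) (s : Set V) : Prop :=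
  q ∈ s ∧ p ∉ s ∧ ∀ c b, c ∈ s → Arc G F j p q c b → b ∈ s

end Pool.Agent.W312.T3
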