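import Pool.Agent.W312.T3.Stm

/-!
# Tree 3-spanners of chordal graphs: closed sets are realised
-/

set_option autoImplicit false

open Classical

namespace Pool.Agent.W312.T3

theorem side_swap {V : Type} [LinearOrder V] (p q : V) (s : Set V) (x : V) :
    side q p sᶜ x = side p q s x := by
  unfold side
  by_cases h : x ∈ s <;> simp [h]

theorem gg_swap {V : Type} [LinearOrder V] (p q : V) (s : Set V) (x y : V) :
    gg q p sᶜ x y = gg p q s x y := by
  unfold gg
  simp only [side_swap]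

theorem gg_congr {V : Type} [LinearOrder V] {p q : V} {s t : Set V} {x y : V}
    (hx : x ∈ s ↔ x ∈ t) (hy : y ∈ s ↔ y ∈ t) : gg p q s x y = gg p q t x y := by
  unfold gg side
  simp only [hx, hy]

theorem main_of (hP : S_PRF) (hG : S_GLUE) : S_MAIN := by
  intro V _ _ G hpeo F hF j
  induction j using WellFoundedLT.induction with
  | ind j ih =>
  intro p q s hpq hs
  obtain ⟨hqs, hps, hcl⟩ := hs
  have key : ∀ k, Par G k j → ∃ f, PC G k f ∧
      ∀ x ∈ Q G k, ∀ y ∈ Q G k, x ≠ y → f x y = gg p q s x y := by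
    intro k hk
    have hkj : k < j := hk.1.1
    have star : ∀ c b, c ∈ s → (c ∈ Q G k ∨ c = q) → (b ∈ Q G k ∨ b = p) → b ≠ q →
        F k p q c b → (b = p → NF G F k q) → (c = q → NF G F k p) → b ∈ s :=
      fun c b hc h1 h2 h3 h4 h5 h6 => hcl c b hc (Or.inr (Or.inr
        ⟨k, hk, h1, fun h => hps (h ▸ hc), h2, h3, h4, h5, h6⟩))
    have ss : ∀ c, ¬ NF G F k c → ∃ f, PC G k f ∧
        ∀ x ∈ Q G k, ∀ y ∈ Q G k, x ≠ y → f x y = if x = c then y else c := by
      intro c hc
      unfold NF at hc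
      push Not at hc
      obtain ⟨p', q', hpq', hst, hu⟩ := hc
      have hcl' : ArcClosed G F k p' q' {w | F k p' q' q' w} :=
        ⟨hF k p' q' q' q' hpq' (Or.inl rfl), hu p' (Or.inr rfl), fun c b hc hb =>
          hF k p' q' q' b hpq' (Or.inr (Or.inr (Or.inr (Or.inr ⟨c, hc, hb⟩))))⟩
      obtain ⟨f, hf1, hf2⟩ := ih k hkj p' q' _ hpq' hcl'
      refine ⟨f, hf1, fun x hx y hy hxy => ?_⟩
      rw [hf2.2.2.2.2 x (Or.inr hx) y (Or.inr hy) hxy,
        (hP V G).2.2.1 (Q G k) p' q' _ hpq'.ne hcl'.1 hcl'.2.1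
          (fun u hu1 hu2 => hu u (Or.inl ⟨hu1, hu2⟩)) x hx y hy hxy]
      exact (hP V G).2.2.2.2 k p' c hst x hx y hy hxy
    -- bottom and top
    have bot : (∀ u ∈ Q G k, u ≠ q → u ∉ s) → ¬ NF G F k p → ∃ f, PC G k f ∧
        ∀ x ∈ Q G k, ∀ y ∈ Q G k, x ≠ y → f x y = gg p q s x y := by
      intro hb hn
      obtain ⟨f, hf1, hf2⟩ := ss p hn
      exact ⟨f, hf1, fun x hx y hy hxy => by
        rw [hf2 x hx y hy hxy, (hP V G).2.2.1 (Q G k) p q s hpq.ne hqs hps hb x hx y hy hxy]⟩
    have top : (∀ u ∈ Q G k, u ≠ p → u ∈ s) → ¬ NF G F k q → ∃ f, PC G k f ∧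
        ∀ x ∈ Q G k, ∀ y ∈ Q G k, x ≠ y → f x y = gg p q s x y := by
      intro hb hn
      obtain ⟨f, hf1, hf2⟩ := ss q hn
      exact ⟨f, hf1, fun x hx y hy hxy => by
        rw [hf2 x hx y hy hxy, ← gg_swap, (hP V G).2.2.1 (Q G k) q p sᶜ hpq.ne.symm hps
          (fun h => h hqs) (fun u hu hup h => h (hb u hu hup)) x hx y hy hxy]⟩
    have r0 : ∀ a, F k p q a a := fun a => hF k p q a a hpq (Or.inl rfl)
    have r3 : ∀ a b, F k p q q b → F k p q a b :=
      fun a b h => hF k p q a b hpq (Or.inr (Or.inr (Or.inl h)))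
    have r4 : ∀ a b, F k p q a p → F k p q a b :=
      fun a b h => hF k p q a b hpq (Or.inr (Or.inr (Or.inr (Or.inl h))))
    have r5 : ∀ a b c, F k p q a c → Arc G F k p q c b → F k p q a b :=
      fun a b c h h' => hF k p q a b hpq (Or.inr (Or.inr (Or.inr (Or.inr ⟨c, h, h'⟩))))
    set t : Set V := {w | ∃ a ∈ s, (a ∈ Q G k ∨ a = q) ∧ F k p q a w} with ht
    by_cases hpt : p ∈ t
    · -- case (ii)
      have hA : (∃ a ∈ s, a ∈ Q G k ∧ a ≠ q ∧ F k p q a p) → ∃ f, PC G k f ∧
          ∀ x ∈ Q G k, ∀ y ∈ Q G k, x ≠ y → f x y = gg p q s x y := by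
        rintro ⟨a, has, haQ, haq, hap⟩
        refine top (fun u hu hup => ?_) (fun hn => ?_)
        · by_cases huq : u = q
          · rw [huq]; exact hqs
          · exact star a u has (Or.inl haQ) (Or.inl hu) huq (r4 a u hap) (fun h => absurd h hup)
              (fun h => absurd h haq)
        · exact hps (star a p has (Or.inl haQ) (Or.inr rfl) hpq.ne hap (fun _ => hn)
            (fun h => absurd h haq))
      obtain ⟨a, has, ha, hap⟩ := hpt
      by_cases haq : a = q
      · subst haq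
        by_cases hu : ∃ u ∈ s, u ∈ Q G k ∧ u ≠ a
        · obtain ⟨u, hus, huQ, hua⟩ := hu
          exact hA ⟨u, hus, huQ, hua, r3 u p hap⟩
        · have hbot : ∀ u ∈ Q G k, u ≠ a → u ∉ s := fun u hu1 hu2 hu3 => hu ⟨u, hu3, hu1, hu2⟩
          by_cases hn : NF G F k p
          · by_cases hn' : NF G F k a
            · exact absurd (star a p has (Or.inr rfl) (Or.inr rfl) hpq.ne hap (fun _ => hn')
                (fun _ => hn)) hps
            · refine top (fun u hu1 hu2 => ?_) hn'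
              by_cases hua : u = a
              · rw [hua]; exact has
              · exact star a u has (Or.inr rfl) (Or.inl hu1) hua (r4 a u hap)
                  (fun h => absurd h hu2) (fun _ => hn)
          · exact bot hbot hn
      · exact hA ⟨a, has, ha.resolve_right haq, haq, hap⟩
    · by_cases hw : ∃ w ∈ Q G k, w ∈ t ∧ w ∉ s
      · obtain ⟨w, hwQ, ⟨a, has, ha, haw⟩, hws⟩ := hw
        have hwp : w ≠ p := fun h => hpt (h ▸ ⟨a, has, ha, haw⟩)
        have hwq : w ≠ q := fun h => hws (h ▸ hqs)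
        have haq : a = q := by
          by_contra haq
          exact hws (star a w has ha (Or.inl hwQ) hwq haw (fun h => absurd h hwp)
            (fun h => absurd h haq))
        subst haq
        have hn : ¬ NF G F k p := fun hn => hws (star a w has ha (Or.inl hwQ) hwq haw
          (fun h => absurd h hwp) (fun _ => hn))
        refine bot (fun u hu1 hu2 hu3 => ?_) hn
        exact hws (star u w hu3 (Or.inl hu1) (Or.inl hwQ) hwq (r3 u w haw)
          (fun h => absurd h hwp) (fun h => absurd h hu2))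
      · have hcl' : ArcClosed G F k p q t :=
          ⟨⟨q, hqs, Or.inr rfl, r0 q⟩, hpt, fun c b ⟨a, h1, h2, h3⟩ hb =>
            ⟨a, h1, h2, r5 a b c h3 hb⟩⟩
        obtain ⟨f, hf1, hf2⟩ := ih k hkj p q t hpq hcl'
        refine ⟨f, hf1, fun x hx y hy hxy => ?_⟩
        have hmem : ∀ z ∈ Q G k, (z ∈ t ↔ z ∈ s) := fun z hz =>
          ⟨fun h => by_contra fun h' => hw ⟨z, hz, h, h'⟩, fun h => ⟨z, h, Or.inl hz, r0 z⟩⟩
        rw [hf2.2.2.2.2 x (Or.inr hx) y (Or.inr hy) hxy]
        exact gg_congr (hmem x hx) (hmem y hy)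
  refine hG V G hpeo j p q s (fun k => if h : Par G k j then Classical.choose (key k h)
    else fun x _ => x) hpq hqs hps ?_ ?_
  · intro x hx hxs
    by_contra hadj
    unfold side at hxs hadj
    by_cases hxm : x ∈ s
    · rw [if_pos hxm] at hxs hadj
      exact hps (hcl x p hxm (Or.inr (Or.inl ⟨rfl, hx, fun h => hps (h ▸ hxm), hxs, hadj⟩)))
    · rw [if_neg hxm] at hxs hadj
      exact hxm (hcl q x hqs (Or.inl ⟨rfl, hx, hxs, fun h => hxm (h ▸ hqs), hadj⟩))
  · intro k hk
    simp only [dif_pos hk]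
    exact Classical.choose_spec (key k hk)

end Pool.Agent.W312.T3
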