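import Pool.Agent.W312.T3.MAIN

/-!
# Tree 3-spanners of chordal graphs: profiles
-/

set_option autoImplicit false
set_option linter.unusedSectionVars false

open Classical

namespace Pool.Agent.W312.T3

section
variable {V : Type} [LinearOrder V]

theorem side_eq_or (p q : V) (s : Set V) (x : V) : side p q s x = p ∨ side p q s x = q := by
  unfold side
  by_cases h : x ∈ s <;> simp [h]

theorem side_of_mem {p q : V} {s : Set V} {x : V} (h : x ∈ s) : side p q s x = q := by
  unfold side; rw [if_pos h]

theorem side_of_not_mem {p q : V} {s : Set V} {x : V} (h : x ∉ s) : side p q s x = p := by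
  unfold side; rw [if_neg h]

theorem gg_ne {p q : V} {s : Set V} {x y : V} (h : x ≠ side p q s x) :
    gg p q s x y = side p q s x := by
  unfold gg; rw [if_pos h]

theorem gg_centre {p q : V} {s : Set V} {x y : V} (h : x = side p q s x) :
    gg p q s x y = if side p q s y = x then y else side p q s y := by
  unfold gg; rw [if_neg (fun h' => h' h)]

/-- The star lemma. -/
theorem gg_star {S : Set V} {p q : V} {s : Set V} (hpq : p ≠ q) (hq : q ∈ s) (hp : p ∉ s)
    (hb : ∀ u ∈ S, u ≠ q → u ∉ s) {x : V} (hx : x ∈ S) {y : V} (hy : y ∈ S) (hxy : x ≠ y) :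
    gg p q s x y = if x = p then y else p := by
  by_cases hxp : x = p
  · subst hxp
    rw [if_pos rfl, gg_centre (side_of_not_mem hp).symm]
    by_cases hyq : y = q
    · subst hyq
      rw [side_of_mem hq, if_neg hpq.symm]
    · rw [side_of_not_mem (hb y hy hyq), if_pos rfl]
  · rw [if_neg hxp]
    by_cases hxq : x = q
    · subst hxq
      rw [gg_centre (side_of_mem hq).symm, side_of_not_mem (hb y hy (Ne.symm hxy)), if_neg hpq]
    · rw [gg_ne, side_of_not_mem (hb x hx hxq)]
      rw [side_of_not_mem (hb x hx hxq)]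
      exact hxp

theorem isProf_swap {G : SimpleGraph V} {f : V → V → V} {S : Set V} {p q : V} {s : Set V}
    (h : IsProf G f S p q s) : IsProf G f S q p sᶜ := by
  obtain ⟨h1, h2, h3, h4, h5⟩ := h
  refine ⟨h1.symm, h3, fun h => h h2, fun x hx hxs => ?_, fun x hx y hy hxy => ?_⟩
  · rw [side_swap] at hxs ⊢
    exact h4 x hx hxs
  · rw [gg_swap]
    exact h5 x hx y hy hxy

/-- From `f x y = p`, with `p ≠ y`, the value is the side of `x` or the side of `y` (`x` a centre). -/
theorem gg_eq_cases {p q : V} {s : Set V} {x y c : V} (h : gg p q s x y = c) (hcy : c ≠ y) :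
    (x ≠ side p q s x ∧ c = side p q s x) ∨
      (x = side p q s x ∧ c = side p q s y ∧ side p q s y ≠ x) := by
  by_cases hx : x = side p q s x
  · right
    rw [gg_centre hx] at h
    by_cases hy : side p q s y = x
    · rw [if_pos hy] at h
      exact absurd h.symm hcy
    · rw [if_neg hy] at h
      exact ⟨hx, h.symm, hy⟩
  · left
    rw [gg_ne hx] at h
    exact ⟨hx, h.symm⟩

end

theorem prf_mix {V : Type} [LinearOrder V] (G : SimpleGraph V) (f : V → V → V) (S : Set V)
    (p q : V) (s : Set V) (p' q' : V) (s' : Set V) (x y : V)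
    (h : IsProf G f S p q s) (h' : IsProf G f S p' q' s') (hx : x ∈ S) (hy : y ∈ S)
    (hxs : x ∉ s) (hxp : x ≠ p) (hys : y ∈ s) (hyq : y ≠ q) :
    (p' = p ∧ q' = q ∧ ∀ z ∈ S, z ∈ s' ↔ z ∈ s) ∨
      (p' = q ∧ q' = p ∧ ∀ z ∈ S, z ∈ s' ↔ z ∉ s) := by
  have hxy : x ≠ y := fun e => hxs (e ▸ hys)
  have hpq : p ≠ q := h.1.ne
  have hpq' : p' ≠ q' := h'.1.ne
  have hps : p ∉ s := h.2.2.1
  have hqs : q ∈ s := h.2.1
  have hps' : p' ∉ s' := h'.2.2.1
  have hqs' : q' ∈ s' := h'.2.1
  have f1 : f x y = p := by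
    rw [h.2.2.2.2 x hx y hy hxy, gg_ne, side_of_not_mem hxs]
    rw [side_of_not_mem hxs]; exact hxp
  have f2 : f y x = q := by
    rw [h.2.2.2.2 y hy x hx hxy.symm, gg_ne, side_of_mem hys]
    rw [side_of_mem hys]; exact hyq
  have g1 : gg p' q' s' x y = p := by rw [← h'.2.2.2.2 x hx y hy hxy, f1]
  have g2 : gg p' q' s' y x = q := by rw [← h'.2.2.2.2 y hy x hx hxy.symm, f2]
  have hpy : p ≠ y := fun e => hps (e ▸ hys)
  have hqx : q ≠ x := fun e => hxs (e ▸ hqs)
  have e1 : x ≠ side p' q' s' x ∧ p = side p' q' s' x := by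
    rcases gg_eq_cases g1 hpy with h1 | ⟨h1, h2, h3⟩
    · exact h1
    · exfalso
      rcases gg_eq_cases g2 hqx with ⟨h4, h5⟩ | ⟨h4, h5, h6⟩
      · exact hpq (h2.trans h5.symm)
      · exact hpy (h2.trans h4.symm)
  have e2 : y ≠ side p' q' s' y ∧ q = side p' q' s' y := by
    rcases gg_eq_cases g2 hqx with h1 | ⟨h1, h2, h3⟩
    · exact h1
    · exfalso
      exact hpq (e1.2.trans h2.symm)
  -- membership
  have hmem : ∀ z ∈ S, z ≠ p → z ≠ q → z ≠ p' → z ≠ q' →
      side p q s z = side p' q' s' z := by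
    intro z hz h1 h2 h3 h4
    have hz1 : z ≠ side p q s z := by
      rcases side_eq_or p q s z with e | e <;> rw [e] <;> assumption
    have hz2 : z ≠ side p' q' s' z := by
      rcases side_eq_or p' q' s' z with e | e <;> rw [e] <;> assumption
    obtain ⟨w, hw, hwz⟩ : ∃ w ∈ S, z ≠ w := by
      by_cases e : z = x
      · exact ⟨y, hy, e ▸ hxy⟩
      · exact ⟨x, hx, e⟩
    have a1 := h.2.2.2.2 z hz w hw hwz
    have a2 := h'.2.2.2.2 z hz w hw hwz
    rw [gg_ne hz1] at a1
    rw [gg_ne hz2] at a2
    rw [← a1, a2]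
  rcases side_eq_or p' q' s' x with k1 | k1
  · have hpp : p = p' := e1.2.trans k1
    have hqq : q = q' := by
      rcases side_eq_or p' q' s' y with k2 | k2
      · exact absurd (hpp.trans (k2.symm.trans e2.2.symm)) hpq
      · exact e2.2.trans k2
    subst hpp
    subst hqq
    refine Or.inl ⟨rfl, rfl, fun z hz => ?_⟩
    by_cases hzp : z = p
    · rw [hzp]; exact ⟨fun a => absurd a hps', fun a => absurd a hps⟩
    by_cases hzq : z = q
    · rw [hzq]; exact ⟨fun _ => hqs, fun _ => hqs'⟩
    have := hmem z hz hzp hzq hzp hzq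
    constructor
    · intro hz'
      by_contra hz''
      rw [side_of_not_mem hz'', side_of_mem hz'] at this
      exact hpq this
    · intro hz'
      by_contra hz''
      rw [side_of_mem hz', side_of_not_mem hz''] at this
      exact hpq this.symm
  · have hpp : p = q' := e1.2.trans k1
    have hqq : q = p' := by
      rcases side_eq_or p' q' s' y with k2 | k2
      · exact e2.2.trans k2
      · exact absurd (hpp.trans (k2.symm.trans e2.2.symm)) hpq
    subst hpp
    subst hqq
    refine Or.inr ⟨rfl, rfl, fun z hz => ?_⟩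
    by_cases hzp : z = p
    · rw [hzp]; exact ⟨fun _ => hps, fun _ => hqs'⟩
    by_cases hzq : z = q
    · rw [hzq]; exact ⟨fun a => absurd a hps', fun a => absurd hqs a⟩
    have := hmem z hz hzp hzq hzq hzp
    constructor
    · intro hz' hz''
      rw [side_of_mem hz', side_of_mem hz''] at this
      exact hpq this.symm
    · intro hz'
      by_contra hz''
      rw [side_of_not_mem hz', side_of_not_mem hz''] at this
      exact hpq this

theorem prf_star {V : Type} [LinearOrder V] (G : SimpleGraph V) (f : V → V → V) (k p q : V)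
    (s : Set V) (p' q' : V) (s' : Set V) (h : IsProf G f (Q G k) p q s)
    (hb : ∀ u ∈ Q G k, u ≠ q → u ∉ s) (h' : IsProf G f (Q G k) p' q' s') :
    (StarEq G k p' p ∧ ∀ u ∈ Q G k, u ≠ q' → u ∉ s') ∨
      (StarEq G k q' p ∧ ∀ u ∈ Q G k, u ≠ p' → u ∈ s') := by
  have hpq' : p' ≠ q' := h'.1.ne
  have hps' : p' ∉ s' := h'.2.2.1
  have hqs' : q' ∈ s' := h'.2.1
  have fs : ∀ x ∈ Q G k, ∀ y ∈ Q G k, x ≠ y → gg p' q' s' x y = if x = p then y else p := by
    intro x hx y hy hxy
    rw [← h'.2.2.2.2 x hx y hy hxy, h.2.2.2.2 x hx y hy hxy,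
      gg_star h.1.ne h.2.1 h.2.2.1 hb hx hy hxy]
  by_cases h2 : ∃ x ∈ Q G k, ∃ y ∈ Q G k, x ≠ y ∧ x ≠ p ∧ y ≠ p
  · obtain ⟨x, hx, y, hy, hxy, hxp, hyp⟩ := h2
    have hc : p = p' ∨ p = q' := by
      have g1 : gg p' q' s' x y = p := by rw [fs x hx y hy hxy, if_neg hxp]
      rcases gg_eq_cases g1 hyp.symm with ⟨_, h1⟩ | ⟨_, h1, _⟩
      · rcases side_eq_or p' q' s' x with e | e
        · exact Or.inl (h1.trans e)
        · exact Or.inr (h1.trans e)
      · rcases side_eq_or p' q' s' y with e | e
        · exact Or.inl (h1.trans e)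
        · exact Or.inr (h1.trans e)
    have hw : ∀ u, ∃ w ∈ Q G k, u ≠ w := by
      intro u
      by_cases e : u = x
      · exact ⟨y, hy, e ▸ hxy⟩
      · exact ⟨x, hx, e⟩
    rcases hc with e | e
    · left
      refine ⟨Or.inl e.symm, fun u hu huq hus => ?_⟩
      have hup : u ≠ p := fun e' => hps' (e ▸ e' ▸ hus)
      obtain ⟨w, hw, huw⟩ := hw u
      have g1 := fs u hu w hw huw
      rw [if_neg hup, gg_ne (by rw [side_of_mem hus]; exact huq), side_of_mem hus] at g1
      exact hpq' (e.symm.trans g1.symm)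
    · right
      refine ⟨Or.inl e.symm, fun u hu hup' => ?_⟩
      by_contra hus
      have hup : u ≠ p := fun e' => hus (by rw [e', e]; exact hqs')
      obtain ⟨w, hw, huw⟩ := hw u
      have g1 := fs u hu w hw huw
      rw [if_neg hup, gg_ne (by rw [side_of_not_mem hus]; exact hup'), side_of_not_mem hus] at g1
      exact hpq' (g1.trans e)
  · by_cases h1 : ∃ x ∈ Q G k, ∃ y ∈ Q G k, x ≠ y
    · have h3 : ∃ z ∈ Q G k, z ≠ p ∧ p ∈ Q G k := by
        obtain ⟨x, hx, y, hy, hxy⟩ := h1
        by_cases e : x = p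
        · exact ⟨y, hy, fun e' => hxy (e.trans e'.symm), e ▸ hx⟩
        · by_cases e' : y = p
          · exact ⟨x, hx, e, e' ▸ hy⟩
          · exact absurd ⟨x, hx, y, hy, hxy, e, e'⟩ h2
      obtain ⟨z, hz, hzp, hpQ⟩ := h3
      have hall : ∀ u ∈ Q G k, u = z ∨ u = p := by
        intro u hu
        by_contra hh
        push Not at hh
        exact h2 ⟨u, hu, z, hz, hh.1, hh.2, hzp⟩
      have g1 := fs p hpQ z hz hzp.symm
      rw [if_pos rfl] at g1
      by_cases hpc : p = side p' q' s' p
      · rcases side_eq_or p' q' s' p with e | e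
        · have e2 : p = p' := hpc.trans e
          left
          refine ⟨Or.inl e2.symm, fun u hu huq hus => ?_⟩
          rcases hall u hu with rfl | rfl
          · rw [gg_centre hpc, side_of_mem hus, if_neg (by rw [e2]; exact hpq'.symm)] at g1
            exact huq g1.symm
          · exact hps' (e2 ▸ hus)
        · have e2 : p = q' := hpc.trans e
          right
          refine ⟨Or.inl e2.symm, fun u hu hup => ?_⟩
          rcases hall u hu with rfl | rfl
          · by_contra hus
            rw [gg_centre hpc, side_of_not_mem hus, if_neg (by rw [e2]; exact hpq')] at g1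
            exact hup g1.symm
          · rw [e2]; exact hqs'
      · rw [gg_ne hpc] at g1
        by_cases hps : p ∈ s'
        · rw [side_of_mem hps] at g1
          subst g1
          right
          exact ⟨Or.inr (Or.inr ⟨hz, hpQ, hall⟩), fun u hu _ => by
            rcases hall u hu with rfl | rfl
            · exact hqs'
            · exact hps⟩
        · rw [side_of_not_mem hps] at g1
          subst g1
          left
          exact ⟨Or.inr (Or.inr ⟨hz, hpQ, hall⟩), fun u hu _ => by
            rcases hall u hu with rfl | rfl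
            · exact hps'
            · exact hps⟩
    · push Not at h1
      by_cases h3 : ∀ u ∈ Q G k, u ≠ q' → u ∉ s'
      · exact Or.inl ⟨Or.inr (Or.inl h1), h3⟩
      · push Not at h3
        obtain ⟨u, hu, _, hus⟩ := h3
        exact Or.inr ⟨Or.inr (Or.inl h1), fun v hv _ => h1 u hu v hv ▸ hus⟩

theorem prf : S_PRF := by
  intro V _ G
  refine ⟨fun f S p q s h => isProf_swap h, fun f S p q s p' q' s' x y => prf_mix G f S p q s p' q' s' x y,
    fun S p q s hpq hq hp hb x hx y hy hxy => gg_star hpq hq hp hb hx hy hxy,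
    fun f k p q s p' q' s' => prf_star G f k p q s p' q' s', ?_⟩
  intro k a c h x hx y hy hxy
  rcases h with rfl | h | ⟨ha, hc, h⟩
  · rfl
  · exact absurd (h x hx y hy) hxy
  · by_cases hac : a = c
    · rw [hac]
    · rcases h x hx with rfl | rfl
      · rcases h y hy with rfl | rfl
        · exact absurd rfl hxy
        · simp [hac]
      · rcases h y hy with rfl | rfl
        · simp [Ne.symm hac]
        · exact absurd rfl hxy

end Pool.Agent.W312.T3
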