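import Pool.Agent.W120.T3.STR
import Pool.Agent.W748.T3.ROOT
import Pool.Agent.W639.T3.Val
import Pool.Agent.W494.T3.GLUE
import Pool.Agent.W120.T3.TOT
import Pool.Agent.W639.T3.Frt
import Pool.Agent.W168.T3.ORD
import Pool.Agent.W312.T3.MAIN
import Pool.Agent.W312.T3.PRF
import Pool.Agent.W312.T3.ALG
import Pool.Agent.NPC.Dec

/-!
# Tree 3-spanners of chordal graphs: the final theorem

The parts are by helper120 (STR, TOT), helper748 (ROOT), helper639 (VAL, FRT), helper494 (GLUE),
helper168 (ORD) and helper312 (PRF, MAIN, ALG).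
-/

set_option autoImplicit false

namespace Pool.Agent.W312.T3

open Pool.Agent.H673R2.Ts Pool.Agent.NPC Pool.Agent.H255R3.STC

theorem main : S_MAIN := main_of prf (Pool.Agent.W494.T3.glue Pool.Agent.W120.T3.str)

theorem val_iter {V : Type} [LinearOrder V] [Fintype V] (G : SimpleGraph V) (hp : PEO G) (N : ℕ) :
    Val G ((Step G)^[N] (fun _ _ _ _ _ => False)) := by
  induction N with
  | zero =>
    intro j p q a b _ h
    exact h.elim
  | succ N ih =>
    rw [Function.iterate_succ_apply']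
    exact Pool.Agent.W639.T3.val Pool.Agent.W120.T3.str prf V G hp _ ih

/-- The characterisation: a chordal graph has a tree 3-spanner iff the facts do not refute it. -/
theorem spanner_iff {V : Type} [LinearOrder V] [Fintype V] [Nontrivial V] (G : SimpleGraph V)
    (hp : PEO G) (hc : G.Connected) (r : V) (hr : ∀ x, x ≤ r)
    (F : V → V → V → V → V → Prop) (hN : ∃ N : ℕ, F = (Step G)^[N] (fun _ _ _ _ _ => False))
    (hF : Closed G F) :
    (∃ T : SimpleGraph V, IsTreeSpanner 3 G T) ↔ ∃ p q, G.Adj p q ∧ ¬ F r p q q p := by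
  have hroot := Pool.Agent.W748.T3.root V G hp hc r hr
  constructor
  · rintro ⟨T, hT⟩
    obtain ⟨f, hf1, hf2⟩ := Pool.Agent.W639.T3.frt V G T hc hT
    have hcl := (Pool.Agent.W120.T3.str V G hp).2.2.2.2.2.2.2
    have hPC : PC G r f := by
      refine ⟨fun m _ => hf1 _ (hcl m), fun x _ y _ hxy _ => ?_, fun x _ y _ hxy h1 h2 _ _ => ?_⟩
      · exact hf2.1 x (Set.mem_univ _) y (Set.mem_univ _) hxy (Set.mem_univ _)
      · exact hf2.2 x (Set.mem_univ _) y (Set.mem_univ _) hxy h1 h2 (Set.mem_univ _)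
          (Set.mem_univ _)
    obtain ⟨p, q, s, hs⟩ := hf1 _ (hcl r)
    obtain ⟨N, rfl⟩ := hN
    exact ⟨p, q, hs.1, fun h => hs.2.2.1 (val_iter G hp N r p q q p hs.1 h f s hPC hs hs.2.1)⟩
  · rintro ⟨p, q, hpq, hn⟩
    have hs : ArcClosed G F r p q {w | F r p q q w} :=
      ⟨hF r p q q q hpq (Or.inl rfl), hn, fun c b h1 h2 =>
        hF r p q q b hpq (Or.inr (Or.inr (Or.inr (Or.inr ⟨c, h1, h2⟩))))⟩
    obtain ⟨f, hf1, hf2⟩ := main V G hp F hF r p q _ hpq hs
    refine Pool.Agent.W120.T3.tot V G hp hc f (fun m => hf1.1 m (hroot m)) ?_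
    have hH : H G r = Set.univ := Set.eq_univ_of_forall fun x => Or.inl (hroot x)
    have := hf1.2
    rwa [hH] at this

theorem dist_hom_le {V W : Type} {G : SimpleGraph V} {G' : SimpleGraph W} (φ : G →g G')
    (hG : G.Connected) (x y : V) : G'.dist (φ x) (φ y) ≤ G.dist x y := by
  obtain ⟨w, hw⟩ := hG.exists_walk_length_eq_dist x y
  rw [← hw, ← SimpleGraph.Walk.length_map φ w]
  exact SimpleGraph.dist_le _

theorem spanner_transport {V W : Type} {G : SimpleGraph V} {G' : SimpleGraph W} (e : G' ≃g G)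
    (hG' : G'.Connected) {t : ℕ} (h : ∃ T, IsTreeSpanner t G T) : ∃ T', IsTreeSpanner t G' T' := by
  obtain ⟨T, h1, h2, h3⟩ := h
  let eT : T.comap e.toEquiv ≃g T := SimpleGraph.Iso.comap e.toEquiv T
  refine ⟨T.comap e.toEquiv, fun a b hab => ?_, eT.isTree_iff.2 h2, fun a b => ?_⟩
  · exact e.map_adj_iff.1 (h1 hab)
  · have hT' : (T.comap e.toEquiv).Connected := (eT.isTree_iff.2 h2).1
    have k1 := dist_hom_le eT.symm.toHom h2.1 (e a) (e b)
    have k2 := dist_hom_le e.toHom hG' a b
    have k3 := h3 (e a) (e b)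
    have e1 : eT.symm.toHom (e a) = a := e.toEquiv.symm_apply_apply a
    have e2 : eT.symm.toHom (e b) = b := e.toEquiv.symm_apply_apply b
    rw [e1, e2] at k1
    exact k1.trans (k3.trans (Nat.mul_le_mul_left t k2))

theorem spanner_iso {V W : Type} {G : SimpleGraph V} {G' : SimpleGraph W} (e : G' ≃g G)
    (hG : G.Connected) {t : ℕ} : (∃ T, IsTreeSpanner t G T) ↔ ∃ T', IsTreeSpanner t G' T' :=
  ⟨fun h => spanner_transport e (e.connected_iff.2 hG) h, fun h => spanner_transport e.symm hG h⟩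

theorem spanner_subsingleton {V : Type} [Subsingleton V] (G : SimpleGraph V) (hG : G.Connected)
    (t : ℕ) : ∃ T, IsTreeSpanner t G T := by
  refine ⟨G, le_rfl, ⟨hG, ?_⟩, fun x y => ?_⟩
  · intro v c hc
    have := hc.three_le_length
    cases c with
    | nil => simp at this
    | cons h _ => exact h.ne (Subsingleton.elim _ _)
  · rw [Subsingleton.elim x y, SimpleGraph.dist_self]
    exact Nat.zero_le _

/-- TREE 3-SPANNER on chordal graphs is decided in polynomial time. -/
theorem decide_chordal : ∃ alg : Inst → Bool, Poly alg ∧ ∀ I : Inst, Valid I →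
    IsChordal (graphOf I) → (alg I = true ↔ HasTreeSpanner 3 I) := by
  obtain ⟨ord, hord, hord2⟩ := Pool.Agent.NPC.W168T3.ord
  obtain ⟨a, ha, ha2⟩ := alg
  refine ⟨fun I => decide (I.1 ≤ 1) || a (ord I),
    Poly.or (Poly.decide_le (Poly.fst Poly.id) (NPC.Poly.const 1)) (ha.comp hord),
    fun I hI hch => ?_⟩
  obtain ⟨h1, ⟨e⟩, h3⟩ := hord2 I hI hch
  have hc : (graphOf I).Connected := hI.2.2
  unfold HasTreeSpanner
  by_cases hn : I.1 ≤ 1
  · have : Subsingleton (Fin I.1) := ⟨fun x y => Fin.ext (by have := x.2; have := y.2; omega)⟩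
    simp only [hn, decide_true, Bool.true_or, true_iff]
    exact spanner_subsingleton _ hc 3
  · simp only [hn, decide_false, Bool.false_or]
    have hcard : (ord I).1 = I.1 := by
      have := Fintype.card_congr e.toEquiv
      simpa using this
    rw [spanner_iso e hc]
    obtain ⟨F, hF1, hF2, hF3⟩ := ha2 (ord I) (by omega) h1
    have : Nontrivial (Fin (ord I).1) := by
      rw [hcard]
      exact Fin.nontrivial_iff_two_le.2 (by omega)
    have hlt : (ord I).1 - 1 < (ord I).1 := by omega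
    have hr : ∀ x : Fin (ord I).1, x ≤ ⟨(ord I).1 - 1, hlt⟩ := by
      intro x
      have := x.2
      change (x : ℕ) ≤ (ord I).1 - 1
      omega
    rw [hF3 _ hr, spanner_iff _ h3 (e.connected_iff.2 hc) _ hr F hF1 hF2]

end Pool.Agent.W312.T3
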