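import Pool.Agent.W312.T3.Defs
import Pool.Agent.H673R2.TsDefs

/-!
# Tree 3-spanners of chordal graphs: the statements of the parts

All proofs are given in the comments; the algorithm was tested against brute force.
-/

set_option autoImplicit false

open Classical

namespace Pool.Agent.W312.T3

open Pool.Agent.H673R2.Ts

/-- STR. The elimination tree.
(a) induction on the path from `m` to `j` (ReflTransGen.head_induction_on): if `Par m m'` then
`Q G m ⊆ K G m'` (an element of `Q G m` other than `m'` is larger than `m'` and adjacent to it by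
PEO), and `m ∈ D G j`.
(b) Let `x ∈ D G j` and `x ~ y`. If `y > x` then `y ∈ Q G x ⊆ K G x ⊆ H G j` by (a). If `y < x` then
`x ∈ Q G y`, and `y ∈ D G x` by strong induction on `y` downwards: (the parent `z` of `y` exists as
`Q G y` is nonempty finite, `z ≤ x`, and `z = x` or `x ∈ Q G z` by PEO).
(c) the parent of a vertex is unique (two least elements), so the chains from `x` are comparable:
if `x ∈ D G k` and `x ∈ D G k'` then `k ∈ D G k'` or `k' ∈ D G k`; as `k < j` would be below ... a
chain from `k` to `k'` with `k ≠ k'` passes the parent `j` of `k`, so `j ≤ k' < j`, a contradiction.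
(d) the elements of `D G k` are `≤ k < j`, those of `K G j` are `≥ j`.
(e) last step of the chain. (f) direct. (g) chains increase. (h) PEO. -/
def S_STR : Prop :=
  ∀ (V : Type) [LinearOrder V] [Fintype V] (G : SimpleGraph V), PEO G →
    (∀ j m, m ∈ D G j → K G m ⊆ H G j) ∧
    (∀ j x y, x ∈ D G j → G.Adj x y → y ∈ H G j) ∧
    (∀ j k k' x, Par G k j → Par G k' j → k ≠ k' → x ∈ D G k → x ∉ D G k') ∧
    (∀ j k x, Par G k j → x ∈ D G k → x ∉ K G j) ∧
    (∀ j m, m ∈ D G j → m = j ∨ ∃ k, Par G k j ∧ m ∈ D G k) ∧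
    (∀ j k, Par G k j → D G k ⊆ D G j ∧ H G k ⊆ H G j ∧ Q G k ⊆ K G j) ∧
    (∀ j x, x ∈ D G j → x ≤ j) ∧
    (∀ m, G.IsClique (K G m))

/-- ROOT. Every vertex other than the maximum `r` has a later neighbour: otherwise take a shortest path
(or a walk) from `x` to `r`; let `x` be a vertex with `Q G x = ∅`, `x ≠ r`: on a path from `x` to `r`
in `G` consider the shortest such walk; its smallest vertex `v` is not an end unless it is `x`; if it
is an inner vertex its two neighbours on the walk are adjacent or equal by PEO and the walk can be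
shortened; if it is `x` then the second vertex is a later neighbour of `x`. Then iterate the parent,
strong induction downwards. -/
def S_ROOT : Prop :=
  ∀ (V : Type) [LinearOrder V] [Fintype V] (G : SimpleGraph V), PEO G → G.Connected →
    ∀ r, (∀ x, x ≤ r) → ∀ x, x ∈ D G r

/-- PRF. Profiles on a set.
(a) `side q p sᶜ = side p q s`, so `gg q p sᶜ = gg p q s`.
(b) two vertices on different sides: `f x y = p ≠ y` and `f y x = q ≠ x`. In `(p', q', s')`: if
`x = side' x` then `f x y` would be `y` or `side' y`, so `p = side' y`, `y ≠ p`, hence `y ≠ side' y`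
and `f y x = side' y = p ≠ q`, a contradiction; so `p = side' x` and in the same way `q = side' y`.
As `p ≠ q` we get `p = p', q = q'` or swapped. For `z ∈ S` not a centre take `w ∈ {x, y}` other than
`z`: `f z w = side z = side' z`; the centres themselves are clear.
(c) star: for `x ≠ p`: if `x ≠ q`, `side x = p`, so `gg = p`; if `x = q`: `side y = p` (as `y ≠ q`), so
`gg = p`. For `x = p`: `side y = p` gives `y`, and `y = q` gives `q = y`.
(d) `f` on `Q` is a star with centre `p` by (c). If `Q G k` has at most one element choose the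
orientation in which it is on the side of the first vertex (`StarEq` holds). If two different
`x, y ∈ Q`, both `≠ p`, exist: `f x y = p` and `f y x = p`, hence `p` is `p'` or `q'` (if `x` is not
its own side, `side' x = p`; if it is, `f x y = y ≠ p` or `p = side' y`); orient such that `p' = p`;
then `u ∈ Q`, `u ≠ q'`, `u ∈ s'` would give `f u w = q' ≠ p` for `w ∈ {x, y}`, `w ≠ u` (and `u ≠ p`
as `p = p' ∉ s'`), a contradiction. Otherwise `Q ⊆ {p, x}` and, if it has two elements, `f p x = x`,
`f x p = p`: so one of `p, x` is a centre and the other one is on its side (or is the other centre);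
orient such that this centre is the first vertex; `StarEq` by its first or third case.
(e) cases. -/
def S_PRF : Prop :=
  ∀ (V : Type) [LinearOrder V] (G : SimpleGraph V),
    (∀ f S p q s, IsProf G f S p q s → IsProf G f S q p sᶜ) ∧
    (∀ f S p q s p' q' s' x y, IsProf G f S p q s → IsProf G f S p' q' s' → x ∈ S → y ∈ S →
      x ∉ s → x ≠ p → y ∈ s → y ≠ q →
      (p' = p ∧ q' = q ∧ ∀ z ∈ S, z ∈ s' ↔ z ∈ s) ∨ (p' = q ∧ q' = p ∧ ∀ z ∈ S, z ∈ s' ↔ z ∉ s)) ∧
    (∀ (S : Set V) (p q : V) (s : Set V), p ≠ q → q ∈ s → p ∉ s → (∀ u ∈ S, u ≠ q → u ∉ s) →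
      ∀ x ∈ S, ∀ y ∈ S, x ≠ y → gg p q s x y = if x = p then y else p) ∧
    (∀ f k p q s p' q' s', IsProf G f (Q G k) p q s → (∀ u ∈ Q G k, u ≠ q → u ∉ s) →
      IsProf G f (Q G k) p' q' s' →
      (StarEq G k p' p ∧ ∀ u ∈ Q G k, u ≠ q' → u ∉ s') ∨
      (StarEq G k q' p ∧ ∀ u ∈ Q G k, u ≠ p' → u ∈ s')) ∧
    (∀ k a c, StarEq G k a c → ∀ x ∈ Q G k, ∀ y ∈ Q G k, x ≠ y →
      (if x = a then y else a) = if x = c then y else c)

/-- VAL. The rules preserve validity. Use `S_STR`, `S_PRF`.
Let `PC G j f`, `IsProf G f (K G j) p q s`, `a ∈ s`; show `b ∈ s` for each rule. `a = b`, `b = q`: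
clear. `F j p q q b`: as `q ∈ s`. `F j p q a p`: would give `p ∈ s`. Last rule: `c ∈ s` by validity,
and look at the three cases of `Arc`. First: if `b ∉ s` then `side b = p ≠ b`, so `b ~ p`.
Second: `side c = q ≠ c` so `c ~ q`, a contradiction. Third (child `k`): `PC G k f` holds (restrict,
`D G k ⊆ D G j`, `H G k ⊆ H G j`), and `f` has a profile `(p', q', s')` on `K G k` as `k ∈ D G k`.
`IsProf` restricts to `Q G k ⊆ K G j`.
(1) some `x ∈ Q G k`, `x ∉ s`, `x ≠ p` and some `y ∈ Q G k`, `y ∈ s`, `y ≠ q`: by PRF (b) (after the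
swap PRF (a)) `f` has on `K G k` a profile `(p, q, s')` with `s'` equal to `s` on `Q G k`; validity of
`F k p q c b` gives `b ∈ s'`, so `b ∈ s` (here `c ∈ s'` as `c ∈ Q G k` or `c = q`, and `b = p` is
impossible as `p ∉ s'`).
(2) no such `y`: so `c = q` and `NF G F k p`. By PRF (d) there is an orientation `(p', q', s')` with
`StarEq G k p' p` and `u ∉ s'` for all `u ∈ Q G k`, `u ≠ q'`. `NF` gives `u` with
`F k p' q' q' u`, so `u ∈ s'` by validity, a contradiction (`u = p'` or `u ∈ Q G k`, `u ≠ q'`).
(3) no such `x`: if `b ∈ Q G k`, `b ≠ p` then `b ∈ s`. Otherwise `b = p` and `NF G F k q`, and the same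
argument for the profile `(q, p, sᶜ)` of `f` gives a contradiction. -/
def S_VAL : Prop :=
  ∀ (V : Type) [LinearOrder V] [Fintype V] (G : SimpleGraph V), PEO G →
    ∀ F, Val G F → Val G (Step G F)

/-- GLUE. Use `S_STR`, `S_PRF`. Put `g := gg p q s` and
`f x y := if x ∈ K G j ∧ y ∈ K G j then g x y else if h : ∃ k, Par G k j ∧ x ∈ H G k ∧ y ∈ H G k ∧
(x ∈ D G k ∨ y ∈ D G k) then fk (choose h) x y else x`; the `k` is unique by STR (c), (d).
So `f = g` on `K G j`, and `f = fk k` on adjacent pairs of `H G k` (a pair of `H G k` inside `K G j`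
lies in `Q G k`, where `fk k = g`, as `D G k` is disjoint from `K G j`).
An adjacent pair of `H G j` lies in `K G j` or in some `H G k` with one end in `D G k` (STR (b), (e)).
Profiles: for `m = j` the profile `(p, q, s)`; for `m ∈ D G k` that of `fk k`.
Auxiliary facts (profile `(p, q, s)`, `x ≠ y` in `K G j`, `c = g x y`): (A) if `c ∈ K G j` then
`g x c = c`, `g c x = x`. (B) `x ~ c`; and `c = y`, or `c` is a centre.
EdgeOk, first part, `x, y` adjacent in `H G j`, `c = f x y ∈ H G j`:
(1) `x, y ∈ K G j`. If `c ∈ K G j`: (A). Otherwise `c ∈ D G k` for some child `k`; `x ~ c`, so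
`x ∈ H G k ∩ K G j = Q G k`. Find `y' ∈ Q G k`, `y' ≠ x`, `g x y' = c`: if `y ~ c` then `y' = y`. If not,
`c = side x` and `d = side y` is the other centre, `c ~ d`, `d ~ y`; if `d ∈ K G j` then `d ∈ Q G k`
and `y' = d`; otherwise `d ∈ H G k` (as `d ~ c`), `d ∈ D G k`, `y ~ d` so `y ∈ Q G k` and `y' = y`.
Then `fk k x y' = c ∈ H G k`, so `fk k x c = c`, `fk k c x = x` by EdgeOk of `fk k`.
(2) one of `x, y` in `D G k`, both in `H G k`: `c = fk k x y`. If `c ∈ H G k`: EdgeOk of `fk k`.
If not: `x ∈ Q G k` (STR (b), `x ~ c`), so `y ∈ D G k`, `y < x`. Use the profile `(p', q', s')` of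
`fk k` on `K G y ∋ x, y`. `y ≁ c` (else `c ∈ H G k`). So `c = side' x ≠ x` and `d = side' y ≠ y` is the
other centre, `y ~ d`, `d ~ c`; so `d ∈ H G k`, `d ∉ D G k`, `d ∈ Q G k`, hence `d ∈ K G y`
(`d > y`) and `fk k x d = side' x = c`, `d ≠ x`. Now `x, d ∈ Q G k ⊆ K G j` and `g x d = c`: case (1).
Second part, `c = f x y ≠ y`, `d = f y x ≠ c`, `c, d ∈ H G j`, show `f c d = d` (the hypotheses are
symmetric, as `f x y ≠ y` implies `f y x ≠ x` by the profiles):
(1) `x, y ∈ K G j`: `c = side x`, `d = side y` are the two centres. Both in `K G j`: `g c d = d`. If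
`c ∈ D G k`: `x ∈ Q G k`, `d ∈ H G k`. If `d ∈ Q G k`: `fk k d x = g d x = c`, and EdgeOk of `fk k` for
`(d, x)` gives `fk k c d = d`. If `d ∈ D G k`: `y ∈ Q G k`, `fk k x y = c`, `fk k y x = d`, second part of
EdgeOk of `fk k`. Symmetric if `d ∈ D G k` (then the first part for `(c, y)`: `g c y = d`).
(2) one of `x, y` in `D G k`: if `c, d ∈ H G k`: EdgeOk of `fk k`. If `c ∉ H G k`: as above `x ∈ Q G k`,
`y ∈ D G k`, `d ∈ Q G k`, `g x d = c`, `g d x = c` (from the profile at `y`), and the first part for the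
pair `(d, x)` in `K G j` gives `f c d = d`. If `d ∉ H G k` exchange the roles. -/
def S_GLUE : Prop :=
  ∀ (V : Type) [LinearOrder V] [Fintype V] (G : SimpleGraph V), PEO G →
    ∀ (j p q : V) (s : Set V) (fk : V → V → V → V), G.Adj p q → q ∈ s → p ∉ s →
      (∀ x ∈ K G j, x ≠ side p q s x → G.Adj x (side p q s x)) →
      (∀ k, Par G k j → PC G k (fk k) ∧
        ∀ x ∈ Q G k, ∀ y ∈ Q G k, x ≠ y → fk k x y = gg p q s x y) →
      ∃ f, PC G j f ∧ IsProf G f (K G j) p q s

/-- MAIN. Use `S_GLUE`, `S_PRF` (and `S_STR`). Well-founded induction on `j` (children are smaller),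
for all `p q s`. Let `s` be closed at `j`. The side condition of GLUE follows from the first two
cases of `Arc`. Fix a child `k`. By the third case of `Arc`:
(*) if `c ∈ s`, `c ∈ Q G k ∨ c = q`, `b ∈ Q G k ∨ b = p`, `b ≠ q`, `F k p q c b`, `b = p → NF G F k q`,
`c = q → NF G F k p`, then `b ∈ s`.
Let `t := {w | ∃ a ∈ s, (a ∈ Q G k ∨ a = q) ∧ F k p q a w}`. By the last rule of `Step`, `c ∈ t` and
`Arc G F k p q c b` give `b ∈ t`; `q ∈ t`, and `s ∩ Q G k ⊆ t` (rule `a = b`).
If `p ∉ t` and `t ∩ Q G k ⊆ s`: the induction hypothesis for `k` and `t` gives `f` with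
`PC G k f` and, on `Q G k`, `f = gg p q t = gg p q s`.
Star solutions: (**) if `¬ NF G F k c` then there is `f` with `PC G k f` and
`f x y = if x = c then y else c` on `Q G k` (`x ≠ y`): take `p', q'` from `¬ NF`, `t' := {w | F k p' q' q' w}`
is closed at `k` and contains no `u ∈ Q G k`, `u ≠ q'`, and not `p'`; use the induction hypothesis,
PRF (c) and (e).
Otherwise: (i) some `w ∈ Q G k`, `w ∈ t`, `w ∉ s`, `w ≠ p`: `F k p q a w` with `a ∈ s`. `a ≠ q` contradicts
(*), so `a = q`, and `¬ NF G F k p` by (*). If some `u ∈ Q G k`, `u ∈ s`, `u ≠ q` then `F k p q u w` by the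
third rule of `Step`, which contradicts (*). So `u ∉ s` for all `u ∈ Q G k`, `u ≠ q`, and (**) with
`c = p` gives the solution by PRF (c).
(ii) `p ∈ t`: `F k p q a p`, `a ∈ s`. If `a` can be chosen with `a ∈ Q G k`, `a ≠ q`: `F k p q a w` for all
`w` by the fourth rule, so all `w ∈ Q G k`, `w ≠ p`, are in `s` by (*), and `¬ NF G F k q` by (*) with
`b = p`; (**) with `c = q` and PRF (c) for `(q, p, sᶜ)` (PRF (a): `gg q p sᶜ = gg p q s`; it can be
proved directly) give the solution. If `a = q`: if some `u ∈ Q G k ∩ s`, `u ≠ q` exists then `F k p q u p` by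
the third rule, previous case. Otherwise by (*) with `c = q`, `b = p`: `¬ NF G F k p` or `¬ NF G F k q`. If
`¬ NF G F k p`: (**) with `c = p`. If `NF G F k p` and `¬ NF G F k q`: every `w ∈ Q G k`, `w ≠ p`, `w ≠ q` has
`F k p q q w` (fourth rule) and is in `s` by (*), so there is none, and (**) with `c = q` works. -/
def S_MAIN : Prop :=
  ∀ (V : Type) [LinearOrder V] [Fintype V] (G : SimpleGraph V), PEO G →
    ∀ F, Closed G F → ∀ (j p q : V) (s : Set V), G.Adj p q → ArcClosed G F j p q s →
      ∃ f, PC G j f ∧ IsProf G f (K G j) p q s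

/-- TOT. From a certificate to a tree. `T.Adj x y := G.Adj x y ∧ f x y = y` (symmetric: the profile on
`K G (min x y)` gives `f x y = y ↔ f y x = x`). For `x ~ y` in `G` with `c = f x y`, `d = f y x`:
`x ~_T c` and `y ~_T d` by EdgeOk, and `c = y`, or `c = d`, or `c ~_T d`; so `T.dist x y ≤ 3`
(all `G`-adjacencies from the profile), `T` is connected, and `T.dist ≤ 3 * G.dist`
(`Pool.Agent.H673R2.Ts.stretch_of_adj` in `TsTree`, landed).
`T` is acyclic: every edge `e = {c, d}` of `T` is a bridge (`SimpleGraph.isAcyclic_iff_forall_edge_isBridge`,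
`isBridge_iff`): it suffices to find `h : V → ZMod 2` (or Bool) with `h x = h y` for the edges
`{x, y} ≠ e` of `T` and `h c ≠ h d`. For adjacent `x, y` in `G` let `φ x y : ZMod 2` be 1 if `e` is one of the
edges `{x, f x y}`, `{f x y, f y x}`, `{f y x, y}` (those with two different ends), else 0. On a bag
`K G m` with profile `(p, q, s)`: `φ x y = h0 x + h0 y` where `h0 x = 1` iff `e` lies on the path
`x, side x, p`: `h0 x = [x ≠ side x ∧ e = {x, side x}] + [side x = q ∧ e = {p, q}]`. Hence
`φ x y + φ y z = φ x z` in every bag. Define `h` by recursion from the top: `h v = 0` if `Q G v = ∅`,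
`h v = φ v u + h u` with `u` the parent of `v` otherwise. Then `φ v x = h v + h x` for `x ∈ Q G v`, by
induction on `v` downwards: `x = u`, or `x ∈ Q G u` and `φ v x = φ v u + φ u x`. For a `T`-edge
`{x, y}`, `φ x y = 1` iff `e = {x, y}`. -/
def S_TOT : Prop :=
  ∀ (V : Type) [LinearOrder V] [Fintype V] (G : SimpleGraph V), PEO G → G.Connected →
    ∀ f : V → V → V, (∀ m, ∃ p q s, IsProf G f (K G m) p q s) → EdgeOk G f Set.univ →
      ∃ T : SimpleGraph V, IsTreeSpanner 3 G T

/-- FRT. From a tree to a certificate. For `x ≠ y` let `f x y` be the neighbour `c` of `x` in `T` with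
`T.dist c y + 1 = T.dist x y` (exists, and is unique as `T` is a tree; see
`Pool.Agent.H673R2.Ts.dist_next`, `adj_mid` in `TsTree`). In a tree, for an edge `p q` and a vertex
`z` either `d(z,p) = d(z,q) + 1` or `d(z,q) = d(z,p) + 1`, and if `z` is nearer to `p` and `y` nearer to
`q` then `d(z,y) = d(z,p) + 1 + d(q,y)`; if both are nearer to `p`... only the following is needed.
Let `S` be a clique of `G`, so pairwise distances in `T` are at most 3. There is an edge `p q` of `T` with
`d(z, p) ≤ 1` or `d(z, q) ≤ 1` for all `z ∈ S`: if `x, y ∈ S` with `d(x,y) = 3`, path `x p q y`: `z` nearer to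
`p` has `d(z,y) = d(z,p) + 2 ≤ 3`, and the same for `q` and `x`. If the maximum distance is 2, path
`x c y`: every `z ∈ S` has `d(z,c) ≤ 1` (otherwise `d(z,x)` or `d(z,y)` is `d(z,c) + 1 ≥ 3`), take
`p q = c x`. If it is 1: `S = {x, y}` (no triangles in `T`), `p q = x y`. If `S` has at most one element
take an edge of `T` at this vertex, or any edge. Put `s := {z | d(z,q) < d(z,p)}`; then for `z ∈ S`:
`side z` is the nearer one of `p, q`, and `z = side z` or `z ~_T side z`. `f x y = gg p q s x y` for
`x ≠ y` in `S`: the path from `x` to `y` is `x, side x, side y, y` with repetitions removed.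
EdgeOk: `{x, f x y}` is an edge of `T`, and `f x c = c` for the edges of `T`; if `c = f x y ≠ y` and
`c ≠ d = f y x` then `d(x,y) = 3` and `c ~_T d`. -/
def S_FRT : Prop :=
  ∀ (V : Type) [LinearOrder V] [Fintype V] [Nontrivial V] (G T : SimpleGraph V), G.Connected →
    IsTreeSpanner 3 G T →
      ∃ f : V → V → V, (∀ S : Set V, G.IsClique S → ∃ p q s, IsProf G f S p q s) ∧
        EdgeOk G f Set.univ

end Pool.Agent.W312.T3
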