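import Pool.Agent.W312.T3.Stm
import Pool.Agent.NPC.Num
import Pool.Agent.H255R3.STC.Chordal

/-!
# Tree 3-spanners of chordal graphs: the statements of the algorithmic parts
-/

set_option autoImplicit false

open Classical

namespace Pool.Agent.W312.T3

open Pool.Agent.H673R2.Ts Pool.Agent.NPC Pool.Agent.H255R3.STC

/-- ALG. The facts are computed in polynomial time: `U` is the list of all 5-tuples of numbers below
`n` (take `(List.range (es.length + 1)).filter (· < n)`, `Poly.range_length`, products by
`R671.poly_product`, see `Pool.Agent.H255R3.STC.Algo`), the state is a list of tuples, one step is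
`U.filter (stepB n es state)`, where `stepB` is the Boolean version of `Step` (written with
`List.any` and `List.all` over the list of numbers and membership in the state), and it is iterated
`U.length` times from `[]` (`Poly.iterLen`; the state is a sublist of `U`, so its size is bounded).
`Step` is monotone in `F` and `F₀ = ∅`, so the iterates increase and are constant after at most
`U.length` steps; hence the last one is closed. -/
def S_ALG : Prop :=
  ∃ alg : Inst → Bool, Poly alg ∧ ∀ I : Inst, 2 ≤ I.1 → I.1 ≤ I.2.length + 1 →
    ∃ F : Fin I.1 → Fin I.1 → Fin I.1 → Fin I.1 → Fin I.1 → Prop,
      (∃ N : ℕ, F = (Step (graphOf I))^[N] (fun _ _ _ _ _ => False)) ∧ Closed (graphOf I) F ∧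
      ∀ r : Fin I.1, (∀ x, x ≤ r) →
        (alg I = true ↔ ∃ p q, (graphOf I).Adj p q ∧ ¬ F r p q q p)

/-- ORD. A perfect elimination order is computed in polynomial time by removing simplicial vertices
one by one: the state is (remaining vertices, removed vertices); in each of `n` rounds move the first
vertex `v` of the remaining list such that any two different neighbours of `v` in the remaining list
are adjacent (if there is none, the head; `Pool.Agent.H255R3.STC.exists_simplicial` shows that there is
always one in a chordal graph, applied to the set of the remaining vertices: either it is a clique,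
or there are `v ≠ w` not adjacent in it). With the list `o` of removed vertices (in the order of
removal) let `ord I = (o.length, all pairs (a, b), a < b < o.length, with o[a], o[b] adjacent in I)`.
For valid `I` the vertices are `0, …, I.1 - 1` and `I.1 ≤ I.2.length + 1` as the graph is connected
(`SimpleGraph.Connected.card_vert_le_card_edgeSet_add_one`), so `List.range (I.2.length + 1)` filtered
by `· < I.1` is the list of all vertices. -/
def S_ORD : Prop :=
  ∃ ord : Inst → Inst, Poly ord ∧ ∀ I : Inst, Valid I → IsChordal (graphOf I) →
    (ord I).1 ≤ (ord I).2.length + 1 ∧ Nonempty (graphOf (ord I) ≃g graphOf I) ∧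
    PEO (graphOf (ord I))

end Pool.Agent.W312.T3
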